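import Mathlib

/-!
# F-algebras, invariant means on almost periodic functionals, invariant subspace properties
-/

set_option autoImplicit false
set_option maxSynthPendingDepth 3

namespace Pool.Agent.Work.MP_12dd5c_an.Impl

open Topology

/-- An F-algebra: a Banach algebra `A`, a W⋆-algebra `W` whose isometric predual is `A` (the
isometric isomorphism `dual : W ≃ A*` is part of the data), such that the identity of `W` is a
multiplicative functional on `A`. -/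
structure FAlg where
  /-- the Banach algebra -/
  A : Type
  [ring : NonUnitalNormedRing A]
  [space : NormedSpace ℂ A]
  [tower : IsScalarTower ℂ A A]
  [comm : SMulCommClass ℂ A A]
  [complete : CompleteSpace A]
  /-- the dual W⋆-algebra -/
  W : Type
  [cstar : CStarAlgebra W]
  [nontriv : Nontrivial W]
  /-- the duality -/
  dual : W ≃ₗᵢ[ℂ] (A →L[ℂ] ℂ)
  mult : ∀ a b : A, dual 1 (a * b) = dual 1 a * dual 1 b

attribute [instance] FAlg.ring FAlg.space FAlg.tower FAlg.comm FAlg.complete FAlg.cstar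
  FAlg.nontriv

/-- `P₁(A)`: the elements of `A` which are positive on `W` and take the value `1` at the identity.
Positive elements of `W` are the elements `g⋆ g`. -/
def P1 (F : FAlg) : Set F.A :=
  {a | (∀ g : F.W, 0 ≤ (F.dual (star g * g) a).re ∧ (F.dual (star g * g) a).im = 0) ∧
    F.dual 1 a = 1}

/-- The module action `f · a`, that is `⟨x, f · a⟩ = ⟨a x, f⟩`. -/
noncomputable def act {F : FAlg} (f : F.A →L[ℂ] ℂ) (a : F.A) : F.A →L[ℂ] ℂ :=
  f.comp (ContinuousLinearMap.mul ℂ F.A a)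

lemma act_add {F : FAlg} (f g : F.A →L[ℂ] ℂ) (a : F.A) :
    act (f + g) a = act f a + act g a := rfl

lemma act_smul {F : FAlg} (c : ℂ) (f : F.A →L[ℂ] ℂ) (a : F.A) :
    act (c • f) a = c • act f a := rfl

/-- `AP(A)`: the functionals `f` for which `a ↦ f · a` is a compact operator. -/
def AP (F : FAlg) : Submodule ℂ (F.A →L[ℂ] ℂ) where
  carrier := {f | IsCompactOperator (fun a : F.A => act f a)}
  add_mem' hf hg := hf.add hg
  zero_mem' := isCompactOperator_zero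
  smul_mem' c _ hf := hf.smul c

/-- A space `V` of functionals, containing the identity and invariant under the right action of
`P₁(A)`, has a topological left invariant mean: there is `m ∈ V*` with `‖m‖ = ⟨m, e⟩ = 1` and
`⟨m, f · a⟩ = ⟨m, f⟩` for `f ∈ V` and `a ∈ P₁(A)`. -/
def HasTLIM (F : FAlg) (V : Submodule ℂ (F.A →L[ℂ] ℂ)) : Prop :=
  ∃ m : V →L[ℂ] ℂ, ‖m‖ = 1 ∧ (∃ h : F.dual 1 ∈ V, m ⟨F.dual 1, h⟩ = 1) ∧
    ∀ f : V, ∀ a ∈ P1 F, ∃ h : act (f : F.A →L[ℂ] ℂ) a ∈ V, m ⟨act f a, h⟩ = m f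

section rep

variable {𝕜 : Type} [RCLike 𝕜] {E : Type} [AddCommGroup E] [Module 𝕜 E] [TopologicalSpace E]

/-- `{T_s}` is a linear representation of the semigroup `P₁(A)` on `E` with `s ↦ T_s x` continuous
for the norm of `A`, and `{T_s}` is equicontinuous on every compact subset of `E`. (`T` is a
function on all of `A`, but only its values on `P₁(A)` are used.) -/
structure IsEquiRep (F : FAlg) (T : F.A → E →ₗ[𝕜] E) : Prop where
  mul : ∀ s ∈ P1 F, ∀ t ∈ P1 F, T (s * t) = T s ∘ₗ T t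
  cont : ∀ x, ContinuousOn (fun s => T s x) (P1 F)
  equi : ∀ K : Set E, IsCompact K → ∀ x ∈ K, ∀ U ∈ 𝓝 (0 : E), ∃ V ∈ 𝓝 x, ∀ y ∈ V ∩ K,
    ∀ s ∈ P1 F, T s y - T s x ∈ U

/-- `𝓛_n(X)`: the `n`-dimensional subspaces contained in `X` (for `n ≥ 1`). -/
def Lsub (𝕜 : Type) [RCLike 𝕜] {E : Type} [AddCommGroup E] [Module 𝕜 E] (n : ℕ) (X : Set E) :
    Set (Submodule 𝕜 E) :=
  {L | Module.finrank 𝕜 L = n ∧ (L : Set E) ⊆ X}

/-- `X` is `n`-consistent. -/
def IsConsistent (F : FAlg) (T : F.A → E →ₗ[𝕜] E) (n : ℕ) (X : Set E) : Prop :=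
  (Lsub 𝕜 n X).Nonempty ∧ ∀ L ∈ Lsub 𝕜 n X, ∀ s ∈ P1 F, L.map (T s) ∈ Lsub 𝕜 n X

/-- the section `(x + H) ∩ X` -/
def sect (H : Submodule 𝕜 E) (X : Set E) (x : E) : Set E := {y | y - x ∈ H ∧ y ∈ X}

/-- `H` is a closed invariant subspace of codimension `n` (for `n ≥ 1`). -/
def IsClosedInvariant (F : FAlg) (T : F.A → E →ₗ[𝕜] E) (n : ℕ) (H : Submodule 𝕜 E) : Prop :=
  IsClosed (H : Set E) ∧ (∀ s ∈ P1 F, ∀ h ∈ H, T s h ∈ H) ∧ Module.finrank 𝕜 (E ⧸ H) = n

end rep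

/-- A separated locally convex space: a Hausdorff topological vector space whose topology is given
by a family of seminorms. -/
structure IsLCS (𝕜 : Type) [RCLike 𝕜] (E : Type) [AddCommGroup E] [Module 𝕜 E]
    [TopologicalSpace E] : Prop where
  group : IsTopologicalAddGroup E
  smul : ContinuousSMul 𝕜 E
  t2 : T2Space E
  convex : ∃ (ι : Type) (_ : Nonempty ι) (p : SeminormFamily 𝕜 E ι), WithSeminorms p

/-- Property `(F_n^A)` (for `n ≥ 1`), for locally convex spaces over `𝕜 = ℝ` or `ℂ`. -/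
def PropertyFA (F : FAlg) (𝕜 : Type) [RCLike 𝕜] (n : ℕ) : Prop :=
  ∀ (E : Type) [AddCommGroup E] [Module 𝕜 E] [TopologicalSpace E], IsLCS 𝕜 E →
    ∀ T : F.A → E →ₗ[𝕜] E, IsEquiRep F T → ∀ X : Set E, IsConsistent F T n X →
    (∃ H : Submodule 𝕜 E, IsClosedInvariant F T n H ∧ ∀ x, IsCompact (sect H X x)) →
    ∃ L ∈ Lsub 𝕜 n X, ∀ s ∈ P1 F, L.map (T s) = L

/-- A weaker property than `(F_n^A)`: the conclusion is only asked for when moreover every `T_s` is
continuous, every `s ↦ T_s x` is uniformly continuous on `P₁(A)` for the norm of `A`, and the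
sections `(x + H) ∩ X` are convex. -/
def WeakPropertyFA (F : FAlg) (𝕜 : Type) [RCLike 𝕜] (n : ℕ) : Prop :=
  ∀ (E : Type) [AddCommGroup E] [Module 𝕜 E] [TopologicalSpace E], IsLCS 𝕜 E →
    ∀ T : F.A → E →ₗ[𝕜] E, IsEquiRep F T → (∀ s ∈ P1 F, Continuous (T s)) →
    (∀ (x : E), ∀ U ∈ 𝓝 (0 : E), ∃ δ > 0, ∀ s ∈ P1 F, ∀ t ∈ P1 F, ‖s - t‖ < δ →
      T s x - T t x ∈ U) →
    ∀ X : Set E, IsConsistent F T n X →
    (∃ H : Submodule 𝕜 E, IsClosedInvariant F T n H ∧ ∀ x, IsCompact (sect H X x) ∧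
      ∀ y ∈ sect H X x, ∀ z ∈ sect H X x, ∀ r : ℝ, 0 ≤ r → r ≤ 1 →
        (r : 𝕜) • y + ((1 - r : ℝ) : 𝕜) • z ∈ sect H X x) →
    ∃ L ∈ Lsub 𝕜 n X, ∀ s ∈ P1 F, L.map (T s) = L

end Pool.Agent.Work.MP_12dd5c_an.Impl
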