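import Mathlib

/-!
# F-algebras, invariant means on almost periodic functionals, invariant subspace properties
-/

set_option autoImplicit false
set_option maxSynthPendingDepth 3

namespace Pool.Agent.Work.MP_12dd5c_an

open Topology

/-- the Banach space dual `A*` of a complex normed space `A` -/
def Dual (A : Type) [NormedAddCommGroup A] [NormedSpace ℂ A] : Type := A →L[ℂ] ℂ

/-- the dual is a normed space, with the operator norm -/
noncomputable instance (A : Type) [NormedAddCommGroup A] [NormedSpace ℂ A] :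
    NormedAddCommGroup (Dual A) := ContinuousLinearMap.toNormedAddCommGroup

noncomputable instance (A : Type) [NormedAddCommGroup A] [NormedSpace ℂ A] :
    NormedSpace ℂ (Dual A) := ContinuousLinearMap.toNormedSpace

/-- the pairing `⟨a, f⟩ = f(a)` -/
noncomputable def ev {A : Type} [NormedAddCommGroup A] [NormedSpace ℂ A] (f : Dual A) (a : A) : ℂ :=
  (show A →L[ℂ] ℂ from f) a

/-- `mul` makes the normed space `A` a normed algebra: it is associative, bilinear, and
submultiplicative for the norm. -/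
structure IsBanachMul {A : Type} [NormedAddCommGroup A] [NormedSpace ℂ A]
    (mul : A → A → A) : Prop where
  assoc : ∀ a b c, mul (mul a b) c = mul a (mul b c)
  add_left : ∀ a b c, mul (a + b) c = mul a c + mul b c
  add_right : ∀ a b c, mul a (b + c) = mul a b + mul a c
  smul_left : ∀ (z : ℂ) a b, mul (z • a) b = z • mul a b
  smul_right : ∀ (z : ℂ) a b, mul a (z • b) = z • mul a b
  norm_le : ∀ a b, ‖mul a b‖ ≤ ‖a‖ * ‖b‖

/-- `d` is a linear isometry of `W` onto the dual of `A`. -/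
structure IsDuality {W A : Type} [CStarAlgebra W] [NormedAddCommGroup A] [NormedSpace ℂ A]
    (d : W → Dual A) : Prop where
  add : ∀ u v, d (u + v) = d u + d v
  smul : ∀ (z : ℂ) u, d (z • u) = z • d u
  norm : ∀ u, ‖d u‖ = ‖u‖
  surj : Function.Surjective d

/-- An F-algebra: a complex Banach algebra `A` and a W⋆-algebra `W` with an isometric linear
isomorphism `dual` of `W` onto `A*`, such that the identity of `W` is a multiplicative
functional on `A`. -/
structure FAlg where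
  /-- the Banach space `A` -/
  A : Type
  [ng : NormedAddCommGroup A]
  [ns : NormedSpace ℂ A]
  [complete : CompleteSpace A]
  /-- the product of `A` -/
  mul : A → A → A
  isBanachMul : IsBanachMul mul
  /-- the W⋆-algebra with predual `A` -/
  W : Type
  [cstar : CStarAlgebra W]
  [nontriv : Nontrivial W]
  /-- the identification of `W` with `A*` -/
  dual : W → Dual A
  isDuality : IsDuality dual
  mult : ∀ a b : A, ev (dual 1) (mul a b) = ev (dual 1) a * ev (dual 1) b

attribute [instance] FAlg.ng FAlg.ns FAlg.complete FAlg.cstar FAlg.nontriv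

/-- `P₁(A)`: the elements of `A` which are positive on `W` and take the value `1` at the identity.
Positive elements of `W` are the elements `g⋆ g`. -/
def P1 (F : FAlg) : Set F.A :=
  {a | (∀ g : F.W, 0 ≤ (ev (F.dual (star g * g)) a).re ∧ (ev (F.dual (star g * g)) a).im = 0) ∧
    ev (F.dual 1) a = 1}

/-- `g = f · a`, that is `⟨x, g⟩ = ⟨a x, f⟩` for all `x`. -/
def IsAct (F : FAlg) (f : Dual F.A) (a : F.A) (g : Dual F.A) : Prop :=
  ∀ x, ev g x = ev f (F.mul a x)

/-- `AP(A)`: the functionals `f` for which `a ↦ f · a` is a compact operator, i.e. the `f · a` with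
`‖a‖ ≤ 1` lie in a norm compact subset of `A*`. -/
def AP (F : FAlg) : Set (Dual F.A) :=
  {f | ∃ K : Set (Dual F.A), IsCompact K ∧ ∀ a : F.A, ‖a‖ ≤ 1 → ∃ g ∈ K, IsAct F f a g}

/-- The space `V` of functionals has a topological left invariant mean: there is a linear
functional `m` on `V` with `|m(f)| ≤ ‖f‖` on `V` and `m(e) = 1` for the identity `e` of `W` (hence
`‖m‖ = m(e) = 1`), and `m(f · a) = m(f)` for `f ∈ V` and `a ∈ P₁(A)`. (Only the values of `m` on `V`
are used.) -/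
structure IsTLIM (F : FAlg) (V : Set (Dual F.A)) (m : Dual F.A → ℂ) : Prop where
  add : ∀ f ∈ V, ∀ g ∈ V, m (f + g) = m f + m g
  smul : ∀ (z : ℂ), ∀ f ∈ V, m (z • f) = z * m f
  norm : ∀ f ∈ V, ‖m f‖ ≤ ‖f‖
  one_mem : F.dual 1 ∈ V
  one : m (F.dual 1) = 1
  inv : ∀ f ∈ V, ∀ a ∈ P1 F, ∃ g ∈ V, IsAct F f a g ∧ m g = m f

section rep

variable {𝕜 : Type} [RCLike 𝕜] {E : Type} [AddCommGroup E] [Module 𝕜 E] [TopologicalSpace E]

/-- `{T_s}` is a linear representation of the semigroup `P₁(A)` on `E` with `s ↦ T_s x` continuous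
for the norm of `A`, and `{T_s}` is equicontinuous on every compact subset of `E`. (`T` is a
function on all of `A`, but only its values on `P₁(A)` are used.) -/
structure IsEquiRep (F : FAlg) (T : F.A → E →ₗ[𝕜] E) : Prop where
  mul : ∀ s ∈ P1 F, ∀ t ∈ P1 F, T (F.mul s t) = T s ∘ₗ T t
  cont : ∀ x, ContinuousOn (fun s => T s x) (P1 F)
  equi : ∀ K : Set E, IsCompact K → ∀ x ∈ K, ∀ U ∈ 𝓝 (0 : E), ∃ V ∈ 𝓝 x, ∀ y ∈ V ∩ K,
    ∀ s ∈ P1 F, T s y - T s x ∈ U

/-- The additional regularity: every `T_s` is continuous and every `s ↦ T_s x` is uniformly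
continuous on `P₁(A)` for the norm of `A`. -/
structure IsRegular (F : FAlg) (T : F.A → E →ₗ[𝕜] E) : Prop where
  cont : ∀ s ∈ P1 F, Continuous (T s)
  unif : ∀ x : E, ∀ U ∈ 𝓝 (0 : E), ∃ δ > 0, ∀ s ∈ P1 F, ∀ t ∈ P1 F, ‖s - t‖ < δ →
    T s x - T t x ∈ U

/-- `𝓛_n(X)`: the `n`-dimensional subspaces contained in `X` (for `n ≥ 1`). -/
def Lsub (𝕜 : Type) [RCLike 𝕜] {E : Type} [AddCommGroup E] [Module 𝕜 E] (n : ℕ) (X : Set E) :
    Set (Submodule 𝕜 E) :=
  {L | Module.finrank 𝕜 L = n ∧ (L : Set E) ⊆ X}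

/-- `X` is `n`-consistent. -/
def IsConsistent (F : FAlg) (T : F.A → E →ₗ[𝕜] E) (n : ℕ) (X : Set E) : Prop :=
  (Lsub 𝕜 n X).Nonempty ∧ ∀ L ∈ Lsub 𝕜 n X, ∀ s ∈ P1 F, L.map (T s) ∈ Lsub 𝕜 n X

/-- the section `(x + H) ∩ X` -/
def sect (H : Submodule 𝕜 E) (X : Set E) (x : E) : Set E := {y | y - x ∈ H ∧ y ∈ X}

/-- convexity, over the real scalars in `𝕜` -/
def IsConvex (𝕜 : Type) [RCLike 𝕜] {E : Type} [AddCommGroup E] [Module 𝕜 E] (C : Set E) : Prop :=
  ∀ y ∈ C, ∀ z ∈ C, ∀ r : ℝ, 0 ≤ r → r ≤ 1 → (r : 𝕜) • y + ((1 - r : ℝ) : 𝕜) • z ∈ C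

/-- `H` is a closed invariant subspace of codimension `n` (for `n ≥ 1`). -/
def IsClosedInvariant (F : FAlg) (T : F.A → E →ₗ[𝕜] E) (n : ℕ) (H : Submodule 𝕜 E) : Prop :=
  IsClosed (H : Set E) ∧ (∀ s ∈ P1 F, ∀ h ∈ H, T s h ∈ H) ∧ Module.finrank 𝕜 (E ⧸ H) = n

end rep

/-- A separated locally convex space: a Hausdorff topological vector space whose topology is given
by a family of seminorms. -/
structure IsLCS (𝕜 : Type) [RCLike 𝕜] (E : Type) [AddCommGroup E] [Module 𝕜 E]
    [TopologicalSpace E] : Prop where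
  group : IsTopologicalAddGroup E
  smul : ContinuousSMul 𝕜 E
  t2 : T2Space E
  convex : ∃ (ι : Type) (_ : Nonempty ι) (p : SeminormFamily 𝕜 E ι), WithSeminorms p

/-- Property `(F_n^A)` (for `n ≥ 1`), for locally convex spaces over `𝕜 = ℝ` or `ℂ`. -/
def PropertyFA (F : FAlg) (𝕜 : Type) [RCLike 𝕜] (n : ℕ) : Prop :=
  ∀ (E : Type) [AddCommGroup E] [Module 𝕜 E] [TopologicalSpace E], IsLCS 𝕜 E →
    ∀ T : F.A → E →ₗ[𝕜] E, IsEquiRep F T → ∀ X : Set E, IsConsistent F T n X →
    (∃ H : Submodule 𝕜 E, IsClosedInvariant F T n H ∧ ∀ x, IsCompact (sect H X x)) →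
    ∃ L ∈ Lsub 𝕜 n X, ∀ s ∈ P1 F, L.map (T s) = L

/-- A weaker property than `(F_n^A)`: the conclusion is only asked for when moreover every `T_s` is
continuous, every `s ↦ T_s x` is uniformly continuous on `P₁(A)` for the norm of `A`, and the
sections `(x + H) ∩ X` are convex. -/
def WeakPropertyFA (F : FAlg) (𝕜 : Type) [RCLike 𝕜] (n : ℕ) : Prop :=
  ∀ (E : Type) [AddCommGroup E] [Module 𝕜 E] [TopologicalSpace E], IsLCS 𝕜 E →
    ∀ T : F.A → E →ₗ[𝕜] E, IsEquiRep F T → IsRegular F T → ∀ X : Set E, IsConsistent F T n X →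
    (∃ H : Submodule 𝕜 E, IsClosedInvariant F T n H ∧
      ∀ x, IsCompact (sect H X x) ∧ IsConvex 𝕜 (sect H X x)) →
    ∃ L ∈ Lsub 𝕜 n X, ∀ s ∈ P1 F, L.map (T s) = L

end Pool.Agent.Work.MP_12dd5c_an
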