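import Mathlib

/-!
# A compact family of operators on the dual of `C[0,1]`
-/

set_option autoImplicit false
set_option maxSynthPendingDepth 3

namespace Pool.Agent.Work.MP_12dd5c_an

open Topology Filter unitInterval

/-- the parameters: a nonnegative two by two matrix and a scalar, with bounds -/
def QSet : Set (Fin 5 → ℝ) :=
  {q | (∀ i, 0 ≤ q i ∧ q i ≤ 1) ∧ (q 4 ≤ q 0 + q 2 ∧ q 4 ≤ q 1 + q 3) ∧
    (q 0 + q 2 ≤ 1 ∧ q 1 + q 3 ≤ 1)}

lemma isCompact_QSet : IsCompact QSet := by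
  have h1 : IsCompact (Set.Icc (0 : Fin 5 → ℝ) 1) := isCompact_Icc
  refine h1.of_isClosed_subset ?_ ?_
  · have e : QSet = (⋂ i, {q : Fin 5 → ℝ | 0 ≤ q i} ∩ {q | q i ≤ 1}) ∩
        (({q | q 4 ≤ q 0 + q 2} ∩ {q | q 4 ≤ q 1 + q 3}) ∩
          ({q | q 0 + q 2 ≤ 1} ∩ {q | q 1 + q 3 ≤ 1})) := by
      ext q
      simp [QSet]
    rw [e]
    refine IsClosed.inter (isClosed_iInter fun i => IsClosed.inter ?_ ?_)
      (IsClosed.inter (IsClosed.inter ?_ ?_) (IsClosed.inter ?_ ?_))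
    · exact isClosed_le continuous_const (continuous_apply i)
    · exact isClosed_le (continuous_apply i) continuous_const
    · exact isClosed_le (continuous_apply 4) ((continuous_apply 0).add (continuous_apply 2))
    · exact isClosed_le (continuous_apply 4) ((continuous_apply 1).add (continuous_apply 3))
    · exact isClosed_le ((continuous_apply 0).add (continuous_apply 2)) continuous_const
    · exact isClosed_le ((continuous_apply 1).add (continuous_apply 3)) continuous_const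
  · rintro q ⟨hq, -, -⟩
    exact ⟨fun i => (hq i).1, fun i => (hq i).2⟩

/-- multiplication of parameters -/
def mulQ (q q' : Fin 5 → ℝ) : Fin 5 → ℝ :=
  ![q 0 * q' 0 + q 1 * q' 2, q 0 * q' 1 + q 1 * q' 3, q 2 * q' 0 + q 3 * q' 2,
    q 2 * q' 1 + q 3 * q' 3, q 4 * q' 4]

lemma mulQ_mem {q q' : Fin 5 → ℝ} (hq : q ∈ QSet) (hq' : q' ∈ QSet) : mulQ q q' ∈ QSet := by
  obtain ⟨h, ⟨h1, h2⟩, h3, h4⟩ := hq
  obtain ⟨h', ⟨h1', h2'⟩, h3', h4'⟩ := hq'
  have a0 := (h 0).1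
  have a1 := (h 1).1
  have a2 := (h 2).1
  have a3 := (h 3).1
  have a4 := (h 4).1
  have b0 := (h' 0).1
  have b1 := (h' 1).1
  have b2 := (h' 2).1
  have b3 := (h' 3).1
  have b4 := (h' 4).1
  have c0 : 0 ≤ q 0 * q' 0 + q 1 * q' 2 := by positivity
  have c1 : 0 ≤ q 0 * q' 1 + q 1 * q' 3 := by positivity
  have c2 : 0 ≤ q 2 * q' 0 + q 3 * q' 2 := by positivity
  have c3 : 0 ≤ q 2 * q' 1 + q 3 * q' 3 := by positivity
  have c4 : 0 ≤ q 4 * q' 4 := by positivity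
  have s1 : (q 0 * q' 0 + q 1 * q' 2) + (q 2 * q' 0 + q 3 * q' 2) ≤ 1 := by
    have e1 : (q 0 + q 2) * q' 0 ≤ 1 * q' 0 := mul_le_mul_of_nonneg_right h3 b0
    have e2 : (q 1 + q 3) * q' 2 ≤ 1 * q' 2 := mul_le_mul_of_nonneg_right h4 b2
    nlinarith
  have s2 : (q 0 * q' 1 + q 1 * q' 3) + (q 2 * q' 1 + q 3 * q' 3) ≤ 1 := by
    have e1 : (q 0 + q 2) * q' 1 ≤ 1 * q' 1 := mul_le_mul_of_nonneg_right h3 b1
    have e2 : (q 1 + q 3) * q' 3 ≤ 1 * q' 3 := mul_le_mul_of_nonneg_right h4 b3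
    nlinarith
  have s3 : q 4 * q' 4 ≤ (q 0 * q' 0 + q 1 * q' 2) + (q 2 * q' 0 + q 3 * q' 2) := by
    have e1 : q 4 * q' 0 ≤ (q 0 + q 2) * q' 0 := mul_le_mul_of_nonneg_right h1 b0
    have e2 : q 4 * q' 2 ≤ (q 1 + q 3) * q' 2 := mul_le_mul_of_nonneg_right h2 b2
    have e3 : q 4 * q' 4 ≤ q 4 * (q' 0 + q' 2) := mul_le_mul_of_nonneg_left h1' a4
    nlinarith
  have s4 : q 4 * q' 4 ≤ (q 0 * q' 1 + q 1 * q' 3) + (q 2 * q' 1 + q 3 * q' 3) := by
    have e1 : q 4 * q' 1 ≤ (q 0 + q 2) * q' 1 := mul_le_mul_of_nonneg_right h1 b1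
    have e2 : q 4 * q' 3 ≤ (q 1 + q 3) * q' 3 := mul_le_mul_of_nonneg_right h2 b3
    have e3 : q 4 * q' 4 ≤ q 4 * (q' 1 + q' 3) := mul_le_mul_of_nonneg_left h2' a4
    nlinarith
  refine ⟨fun i => ?_, ⟨s3, s4⟩, s1, s2⟩
  fin_cases i
  · exact ⟨c0, by show q 0 * q' 0 + q 1 * q' 2 ≤ 1; linarith⟩
  · exact ⟨c1, by show q 0 * q' 1 + q 1 * q' 3 ≤ 1; linarith⟩
  · exact ⟨c2, by show q 2 * q' 0 + q 3 * q' 2 ≤ 1; linarith⟩
  · exact ⟨c3, by show q 2 * q' 1 + q 3 * q' 3 ≤ 1; linarith⟩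
  · exact ⟨c4, by show q 4 * q' 4 ≤ 1; linarith⟩

/-- the parameter space -/
abbrev Q : Type := QSet

instance : CompactSpace Q := isCompact_iff_compactSpace.mp isCompact_QSet

namespace Q

/-- first row applied to `(x, 1 - x)` -/
def num (q : Fin 5 → ℝ) (x : ℝ) : ℝ := q 0 * x + q 1 * (1 - x)

/-- the sum of both rows applied to `(x, 1 - x)` -/
def den (q : Fin 5 → ℝ) (x : ℝ) : ℝ := (q 0 + q 2) * x + (q 1 + q 3) * (1 - x)

/-- the projective action on `[0, 1]` -/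
noncomputable def phi (q : Fin 5 → ℝ) (x : ℝ) : I :=
  Set.projIcc 0 1 zero_le_one (num q x / den q x)

lemma le_den (q : Q) (x : I) : (q : Fin 5 → ℝ) 4 ≤ den q x := by
  obtain ⟨-, ⟨h1, h2⟩, -⟩ := q.2
  have hx0 := x.2.1
  have hx1 := x.2.2
  unfold den
  nlinarith

lemma num_nonneg (q : Q) (x : I) : 0 ≤ num q x := by
  obtain ⟨h, -, -⟩ := q.2
  have hx0 := x.2.1
  have hx1 := x.2.2
  have := (h 0).1
  have := (h 1).1
  unfold num
  have : 0 ≤ 1 - (x : ℝ) := by linarith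
  positivity

lemma num_le_den (q : Q) (x : I) : num q x ≤ den q x := by
  obtain ⟨h, -, -⟩ := q.2
  have hx0 := x.2.1
  have hx1 := x.2.2
  have := (h 2).1
  have := (h 3).1
  unfold num den
  nlinarith

lemma phi_val (q : Q) (x : I) : (phi q x : ℝ) = num q x / den q x := by
  have h0 : 0 ≤ den q x := (num_nonneg q x).trans (num_le_den q x)
  have h1 : 0 ≤ num q x / den q x := div_nonneg (num_nonneg q x) h0
  have h2 : num q x / den q x ≤ 1 := div_le_one_of_le₀ (num_le_den q x) h0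
  rw [phi, Set.projIcc_of_mem zero_le_one ⟨h1, h2⟩]

lemma nonneg4 (q : Q) : 0 ≤ (q : Fin 5 → ℝ) 4 := (q.2.1 4).1

lemma le_one4 (q : Q) : (q : Fin 5 → ℝ) 4 ≤ 1 := (q.2.1 4).2

variable {𝕜 : Type} [RCLike 𝕜]

/-- the function `c · h (φ x)` -/
noncomputable def gfun (h : C(I, 𝕜)) (p : Q × I) : 𝕜 :=
  (((p.1 : Fin 5 → ℝ) 4 : ℝ) : 𝕜) * h (phi p.1 p.2)

lemma norm_gfun_le (h : C(I, 𝕜)) (p : Q × I) :
    ‖gfun h p‖ ≤ (p.1 : Fin 5 → ℝ) 4 * ‖h‖ := by
  rw [gfun, norm_mul, RCLike.norm_ofReal, abs_of_nonneg (nonneg4 p.1)]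
  exact mul_le_mul_of_nonneg_left (h.norm_coe_le_norm _) (nonneg4 p.1)

lemma continuous_gfun (h : C(I, 𝕜)) : Continuous (gfun h) := by
  rw [continuous_iff_continuousAt]
  intro p₀
  have hc4 : Continuous fun p : Q × I => (p.1 : Fin 5 → ℝ) 4 :=
    (continuous_apply 4).comp (continuous_subtype_val.comp continuous_fst)
  have hci : ∀ i, Continuous fun p : Q × I => (p.1 : Fin 5 → ℝ) i := fun i =>
    (continuous_apply i).comp (continuous_subtype_val.comp continuous_fst)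
  have hx : Continuous fun p : Q × I => (p.2 : ℝ) := continuous_subtype_val.comp continuous_snd
  rcases eq_or_lt_of_le (nonneg4 p₀.1) with h0 | h0
  · -- the scalar vanishes
    have hz : gfun h p₀ = 0 := by
      rw [gfun, ← h0]; simp
    rw [ContinuousAt, hz]
    refine squeeze_zero_norm (norm_gfun_le h) ?_
    have := (hc4.mul_const ‖h‖).tendsto p₀
    rwa [← h0, zero_mul] at this
  · have hd : den p₀.1 p₀.2 ≠ 0 := (lt_of_lt_of_le h0 (le_den p₀.1 p₀.2)).ne'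
    have hn : Continuous fun p : Q × I => num p.1 p.2 := by
      unfold num
      exact ((hci 0).mul hx).add ((hci 1).mul (continuous_const.sub hx))
    have hdc : Continuous fun p : Q × I => den p.1 p.2 := by
      unfold den
      exact (((hci 0).add (hci 2)).mul hx).add (((hci 1).add (hci 3)).mul (continuous_const.sub hx))
    have hphi : ContinuousAt (fun p : Q × I => phi p.1 p.2) p₀ := by
      unfold phi
      exact (continuous_projIcc.continuousAt).comp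
        ((hn.continuousAt).div hdc.continuousAt hd)
    unfold gfun
    refine ContinuousAt.mul ?_ (h.continuous.continuousAt.comp hphi)
    exact (RCLike.continuous_ofReal.comp hc4).continuousAt

/-- the continuous curve of functions -/
noncomputable def G (h : C(I, 𝕜)) : C(Q, C(I, 𝕜)) :=
  ContinuousMap.curry ⟨gfun h, continuous_gfun h⟩

lemma G_apply (h : C(I, 𝕜)) (q : Q) (x : I) :
    G h q x = (((q : Fin 5 → ℝ) 4 : ℝ) : 𝕜) * h (phi q x) := rfl

lemma norm_G_le (h : C(I, 𝕜)) (q : Q) : ‖G h q‖ ≤ (q : Fin 5 → ℝ) 4 * ‖h‖ :=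
  (ContinuousMap.norm_le _ (mul_nonneg (nonneg4 q) (norm_nonneg h))).mpr
    fun x => norm_gfun_le h (q, x)

variable (𝕜) in
/-- the weighted composition operator on `C[0,1]` -/
noncomputable def Gop (q : Q) : C(I, 𝕜) →L[𝕜] C(I, 𝕜) :=
  LinearMap.mkContinuous
    { toFun := fun h => G h q
      map_add' := fun h k => by
        ext x
        rw [ContinuousMap.add_apply, G_apply, G_apply, G_apply, ContinuousMap.add_apply, mul_add]
      map_smul' := fun c h => by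
        ext x
        rw [RingHom.id_apply, ContinuousMap.smul_apply, G_apply, G_apply, ContinuousMap.smul_apply,
          smul_eq_mul, smul_eq_mul]
        ring }
    1 (fun h => (norm_G_le h q).trans
      (mul_le_mul_of_nonneg_right (le_one4 q) (norm_nonneg h)))

lemma Gop_apply (q : Q) (h : C(I, 𝕜)) : Gop 𝕜 q h = G h q := rfl

variable (𝕜) in
/-- the space `E`: the dual of `C[0,1]` with its weak-star topology -/
abbrev ESp : Type := WeakDual 𝕜 C(I, 𝕜)

/-- the operators on `E` -/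
noncomputable def Tq (q : Q) : ESp 𝕜 →ₗ[𝕜] ESp 𝕜 where
  toFun ψ := StrongDual.toWeakDual ((WeakDual.toStrongDual ψ).comp (Gop 𝕜 q))
  map_add' _ _ := rfl
  map_smul' _ _ := rfl

lemma Tq_apply (q : Q) (ψ : ESp 𝕜) (h : C(I, 𝕜)) : (Tq q ψ) h = ψ (G h q) := rfl

lemma continuous_Tq (q : Q) : Continuous (Tq q : ESp 𝕜 → ESp 𝕜) :=
  WeakDual.continuous_of_continuous_eval fun h => WeakDual.eval_continuous (G h q)

lemma continuous_Tq_param (ψ : ESp 𝕜) : Continuous fun q : Q => Tq q ψ :=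
  WeakDual.continuous_of_continuous_eval fun h =>
    (WeakDual.toStrongDual ψ).continuous.comp (G h).continuous

lemma exists_bound {K : Set (ESp 𝕜)} (hK : IsCompact K) :
    ∃ C : ℝ, ∀ y ∈ K, ∀ h : C(I, 𝕜), ‖y h‖ ≤ C * ‖h‖ := by
  obtain ⟨C, hC⟩ := banach_steinhaus (E := C(I, 𝕜)) (F := 𝕜) (ι := K)
    (g := fun y => (WeakDual.toStrongDual (y : ESp 𝕜) : C(I, 𝕜) →L[𝕜] 𝕜)) (fun h => by
      have h1 : IsCompact ((fun y : ESp 𝕜 => y h) '' K) :=
        hK.image (WeakDual.eval_continuous h)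
      obtain ⟨C, hC⟩ := h1.isBounded.exists_norm_le
      exact ⟨C, fun y => hC _ ⟨y, y.2, rfl⟩⟩)
  exact ⟨C, fun y hy h => ((WeakDual.toStrongDual y : C(I, 𝕜) →L[𝕜] 𝕜).le_opNorm h).trans
    (mul_le_mul_of_nonneg_right (hC ⟨y, hy⟩) (norm_nonneg h))⟩

lemma G_mul (h : C(I, 𝕜)) (q q' r : Q) (hr : (r : Fin 5 → ℝ) = mulQ q q') :
    G (G h q) q' = G h r := by
  have r0 : (r : Fin 5 → ℝ) 0 = (q : Fin 5 → ℝ) 0 * (q' : Fin 5 → ℝ) 0
      + (q : Fin 5 → ℝ) 1 * (q' : Fin 5 → ℝ) 2 := by rw [hr]; rfl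
  have r1 : (r : Fin 5 → ℝ) 1 = (q : Fin 5 → ℝ) 0 * (q' : Fin 5 → ℝ) 1
      + (q : Fin 5 → ℝ) 1 * (q' : Fin 5 → ℝ) 3 := by rw [hr]; rfl
  have r2 : (r : Fin 5 → ℝ) 2 = (q : Fin 5 → ℝ) 2 * (q' : Fin 5 → ℝ) 0
      + (q : Fin 5 → ℝ) 3 * (q' : Fin 5 → ℝ) 2 := by rw [hr]; rfl
  have r3 : (r : Fin 5 → ℝ) 3 = (q : Fin 5 → ℝ) 2 * (q' : Fin 5 → ℝ) 1
      + (q : Fin 5 → ℝ) 3 * (q' : Fin 5 → ℝ) 3 := by rw [hr]; rfl
  have r4 : (r : Fin 5 → ℝ) 4 = (q : Fin 5 → ℝ) 4 * (q' : Fin 5 → ℝ) 4 := by rw [hr]; rfl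
  ext x
  rw [G_apply, G_apply, G_apply, r4]
  rcases eq_or_lt_of_le (nonneg4 q') with h0 | h0
  · rw [← h0]; simp
  · have hd : den q' x ≠ 0 := (lt_of_lt_of_le h0 (le_den q' x)).ne'
    have e : phi r x = phi q (phi q' x) := by
      apply Subtype.ext
      rw [phi_val, phi_val, phi_val]
      have k1 : (q : Fin 5 → ℝ) 0 * num q' x + (q : Fin 5 → ℝ) 1 * (den q' x - num q' x)
          = num r x := by
        unfold num den
        rw [r0, r1]
        ring
      have k2 : ((q : Fin 5 → ℝ) 0 + (q : Fin 5 → ℝ) 2) * num q' x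
          + ((q : Fin 5 → ℝ) 1 + (q : Fin 5 → ℝ) 3) * (den q' x - num q' x) = den r x := by
        unfold num den
        rw [r0, r1, r2, r3]
        ring
      have e1 : num q (num q' x / den q' x) = num r x / den q' x := by
        rw [← k1]
        generalize den q' x = d at hd
        generalize num q' x = n
        unfold num
        field_simp
      have e2 : den q (num q' x / den q' x) = den r x / den q' x := by
        rw [← k2]
        generalize den q' x = d at hd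
        generalize num q' x = n
        unfold den
        field_simp
      rw [e1, e2, div_div_div_cancel_right₀ hd]
    rw [e]
    push_cast
    ring

lemma Tq_mul (q q' r : Q) (hr : (r : Fin 5 → ℝ) = mulQ q q') :
    (Tq r : ESp 𝕜 →ₗ[𝕜] ESp 𝕜) = Tq q ∘ₗ Tq q' := by
  refine LinearMap.ext fun ψ => ?_
  refine DFunLike.ext _ _ fun h => ?_
  rw [LinearMap.comp_apply, Tq_apply, Tq_apply, Tq_apply, G_mul h q q' r hr]

/-- equicontinuity on compact sets -/
lemma equi {K : Set (ESp 𝕜)} (hK : IsCompact K) {x : ESp 𝕜} (hx : x ∈ K) {U : Set (ESp 𝕜)}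
    (hU : U ∈ 𝓝 (0 : ESp 𝕜)) : ∃ V ∈ 𝓝 x, ∀ y ∈ V ∩ K, ∀ q : Q, Tq q y - Tq q x ∈ U := by
  obtain ⟨C, hC⟩ := exists_bound hK
  -- joint continuity
  have hjoint : Continuous fun z : K × Q => Tq z.2 (z.1 : ESp 𝕜) := by
    refine WeakDual.continuous_of_continuous_eval fun h => ?_
    rw [continuous_iff_continuousAt]
    rintro ⟨y₀, q₀⟩
    have e1 : Tendsto (fun z : K × Q => ((z.1 : ESp 𝕜) (G h z.2 - G h q₀) : 𝕜)) (𝓝 (y₀, q₀))
        (𝓝 0) := by
      refine squeeze_zero_norm (a := fun z : K × Q => C * ‖G h z.2 - G h q₀‖)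
        (fun z => hC z.1 z.1.2 _) ?_
      have h2 : Continuous fun z : K × Q => C * ‖G h z.2 - G h q₀‖ := by fun_prop
      have h3 := h2.tendsto (y₀, q₀)
      simpa using h3
    have e2 : Tendsto (fun z : K × Q => ((z.1 : ESp 𝕜) (G h q₀) : 𝕜)) (𝓝 (y₀, q₀))
        (𝓝 ((y₀ : ESp 𝕜) (G h q₀))) :=
      (((WeakDual.eval_continuous (G h q₀)).comp continuous_subtype_val).comp
        continuous_fst).tendsto (y₀, q₀)
    have e3 := e1.add e2
    rw [zero_add] at e3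
    refine e3.congr (fun z => ?_)
    show (z.1 : ESp 𝕜) (G h z.2 - G h q₀) + (z.1 : ESp 𝕜) (G h q₀) = (z.1 : ESp 𝕜) (G h z.2)
    rw [map_sub]
    ring
  have hdiff : Continuous fun z : K × Q => Tq z.2 (z.1 : ESp 𝕜) - Tq z.2 x := by
    exact hjoint.sub ((continuous_Tq_param x).comp continuous_snd)
  have hev : ∀ q ∈ (Set.univ : Set Q), ∀ᶠ z : K × Q in 𝓝 ((⟨x, hx⟩ : K), q),
      Tq z.2 (z.1 : ESp 𝕜) - Tq z.2 x ∈ U := by
    intro q _
    have h1 := hdiff.tendsto ((⟨x, hx⟩ : K), q)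
    have h2 : Tq q ((⟨x, hx⟩ : K) : ESp 𝕜) - Tq q x = 0 := sub_self _
    simp only [h2] at h1
    exact h1 hU
  have := isCompact_univ.eventually_forall_of_forall_eventually
    (P := fun (y : K) (q : Q) => Tq q (y : ESp 𝕜) - Tq q x ∈ U) hev
  rw [nhds_subtype_eq_comap, eventually_comap] at this
  obtain ⟨V, hV, hV'⟩ := this.exists_mem
  refine ⟨V, hV, fun y hy q => ?_⟩
  exact hV' y hy.1 ⟨y, hy.2⟩ rfl q (Set.mem_univ q)

/-- uniform continuity in the parameter -/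
lemma unif (ψ : ESp 𝕜) {U : Set (ESp 𝕜)} (hU : U ∈ 𝓝 (0 : ESp 𝕜)) :
    ∃ δ > 0, ∀ q q' : Q, dist (q : Fin 5 → ℝ) q' < δ → Tq q ψ - Tq q' ψ ∈ U := by
  have hdiff : Continuous fun z : Q × Q => Tq z.1 ψ - Tq z.2 ψ :=
    ((continuous_Tq_param ψ).comp continuous_fst).sub ((continuous_Tq_param ψ).comp continuous_snd)
  -- complement of the preimage is compact
  by_contra hcon
  push Not at hcon
  choose q q' hd hq using fun n : ℕ => hcon (1 / ((n : ℝ) + 1)) (by positivity)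
  obtain ⟨a, -, f, hf, ha⟩ := isCompact_univ.tendsto_subseq (fun n => Set.mem_univ (q n))
  have ha' : Tendsto (q' ∘ f) atTop (𝓝 a) := by
    rw [tendsto_iff_dist_tendsto_zero] at ha ⊢
    have h1 : Tendsto (fun n : ℕ => 1 / ((f n : ℝ) + 1)) atTop (𝓝 0) :=
      tendsto_one_div_add_atTop_nhds_zero_nat.comp hf.tendsto_atTop
    have h2 := h1.add ha
    rw [add_zero] at h2
    refine squeeze_zero (fun _ => dist_nonneg) (fun n => ?_) h2
    calc dist (q' (f n)) a ≤ dist (q' (f n)) (q (f n)) + dist (q (f n)) a := dist_triangle _ _ _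
      _ ≤ 1 / ((f n : ℝ) + 1) + dist (q (f n)) a := by
          have := (hd (f n)).le
          rw [dist_comm] at this
          gcongr
          exact this
  have h3 : Tendsto (fun n => ((q (f n), q' (f n)) : Q × Q)) atTop (𝓝 (a, a)) :=
    ha.prodMk_nhds ha'
  have h4 := (hdiff.tendsto (a, a)).comp h3
  simp only [sub_self] at h4
  have h5 : ∀ᶠ n in atTop, Tq (q (f n)) ψ - Tq (q' (f n)) ψ ∈ U := h4 hU
  obtain ⟨n, hn⟩ := h5.exists
  exact hq (f n) hn

end Q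

end Pool.Agent.Work.MP_12dd5c_an
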