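import Pool.Agent.Work.MP_12dd5c_an.L1
import Pool.Agent.Work.MP_12dd5c_an.Core
import Pool.Agent.Work.MP_12dd5c_an.Flow

/-!
# The F-algebra `ℓ¹(ℕ² ⋊ ℤ/2)`
-/

set_option autoImplicit false
set_option maxSynthPendingDepth 3

namespace Pool.Agent.Work.MP_12dd5c_an

open Topology Filter Impl

/-- the monoid `ℕ² ⋊ ℤ/2` -/
structure Sm : Type where
  m : ℕ
  n : ℕ
  b : Bool

namespace Sm

@[ext] lemma ext' {x y : Sm} (h1 : x.m = y.m) (h2 : x.n = y.n) (h3 : x.b = y.b) : x = y := by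
  cases x; cases y; simp_all

instance : Mul Sm := ⟨fun x y =>
  ⟨x.m + (bif x.b then y.n else y.m), x.n + (bif x.b then y.m else y.n), xor x.b y.b⟩⟩

instance : One Sm := ⟨⟨0, 0, false⟩⟩

lemma mul_def (x y : Sm) : x * y =
  ⟨x.m + (bif x.b then y.n else y.m), x.n + (bif x.b then y.m else y.n), xor x.b y.b⟩ := rfl

lemma one_def : (1 : Sm) = ⟨0, 0, false⟩ := rfl

instance : Monoid Sm where
  mul_assoc x y z := by
    obtain ⟨a, b, c⟩ := x
    obtain ⟨a', b', c'⟩ := y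
    obtain ⟨a'', b'', c''⟩ := z
    cases c <;> cases c' <;> simp only [mul_def] <;> ext <;> simp <;> omega
  one_mul x := by
    obtain ⟨a, b, c⟩ := x
    rw [one_def, mul_def]
    simp
  mul_one x := by
    obtain ⟨a, b, c⟩ := x
    rw [one_def, mul_def]
    cases c <;> simp

instance : TopologicalSpace Sm := ⊥

instance : DiscreteTopology Sm := ⟨rfl⟩

/-- the generators -/
def D : Sm := ⟨1, 0, false⟩
/-- the generators -/
def E : Sm := ⟨0, 1, false⟩
/-- the generators -/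
def P : Sm := ⟨0, 0, true⟩

lemma D_mul_E : D * E = E * D := rfl
lemma P_mul_D : P * D = E * P := rfl
lemma P_mul_E : P * E = D * P := rfl
lemma P_mul_P : P * P = 1 := rfl

lemma D_pow (k : ℕ) : D ^ k = ⟨k, 0, false⟩ := by
  induction k with
  | zero => rfl
  | succ k ih => rw [pow_succ, ih, mul_def, D]; simp

lemma E_pow (k : ℕ) : E ^ k = ⟨0, k, false⟩ := by
  induction k with
  | zero => rfl
  | succ k ih => rw [pow_succ, ih, mul_def, E]; simp

lemma eq_prod (x : Sm) : x = D ^ x.m * E ^ x.n * (bif x.b then P else 1) := by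
  obtain ⟨a, b, c⟩ := x
  rw [D_pow, E_pow]
  cases c <;> simp [mul_def, P, one_def]

/-- the weights and the matrix entries of the representation -/
noncomputable def ent (i : Fin 5) (s : Sm) : ℝ :=
  match i with
  | 0 => bif s.b then 0 else (1 / 2) ^ s.m
  | 1 => bif s.b then (1 / 2) ^ s.m else 0
  | 2 => bif s.b then (1 / 2) ^ s.n else 0
  | 3 => bif s.b then 0 else (1 / 2) ^ s.n
  | 4 => (1 / 2) ^ (s.m + s.n)

lemma half_pow (k : ℕ) : 0 ≤ (1 / 2 : ℝ) ^ k ∧ (1 / 2 : ℝ) ^ k ≤ 1 :=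
  ⟨by positivity, pow_le_one₀ (by norm_num) (by norm_num)⟩

lemma ent_mem (i : Fin 5) (s : Sm) : 0 ≤ ent i s ∧ ent i s ≤ 1 := by
  fin_cases i
  · rcases s with ⟨a, b, c⟩; cases c
    · exact half_pow a
    · exact ⟨le_rfl, zero_le_one⟩
  · rcases s with ⟨a, b, c⟩; cases c
    · exact ⟨le_rfl, zero_le_one⟩
    · exact half_pow a
  · rcases s with ⟨a, b, c⟩; cases c
    · exact ⟨le_rfl, zero_le_one⟩
    · exact half_pow b
  · rcases s with ⟨a, b, c⟩; cases c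
    · exact half_pow b
    · exact ⟨le_rfl, zero_le_one⟩
  · exact half_pow _

lemma ent_le1 (s : Sm) : ent 4 s ≤ ent 0 s + ent 2 s := by
  rcases s with ⟨a, b, c⟩
  have ha := half_pow a
  have hb := half_pow b
  have h : (1 / 2 : ℝ) ^ (a + b) = (1 / 2) ^ a * (1 / 2) ^ b := pow_add _ _ _
  cases c
  · show (1 / 2 : ℝ) ^ (a + b) ≤ (1 / 2) ^ a + 0
    rw [h]; nlinarith
  · show (1 / 2 : ℝ) ^ (a + b) ≤ 0 + (1 / 2) ^ b
    rw [h]; nlinarith

lemma ent_le2 (s : Sm) : ent 4 s ≤ ent 1 s + ent 3 s := by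
  rcases s with ⟨a, b, c⟩
  have ha := half_pow a
  have hb := half_pow b
  have h : (1 / 2 : ℝ) ^ (a + b) = (1 / 2) ^ a * (1 / 2) ^ b := pow_add _ _ _
  cases c
  · show (1 / 2 : ℝ) ^ (a + b) ≤ 0 + (1 / 2) ^ b
    rw [h]; nlinarith
  · show (1 / 2 : ℝ) ^ (a + b) ≤ (1 / 2) ^ a + 0
    rw [h]; nlinarith

lemma ent4_pos (s : Sm) : 0 < ent 4 s := by
  show (0 : ℝ) < (1 / 2) ^ (s.m + s.n)
  positivity

lemma ent_mul0 (s t : Sm) : ent 0 (s * t) = ent 0 s * ent 0 t + ent 1 s * ent 2 t := by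
  rcases s with ⟨a, b, c⟩
  rcases t with ⟨a', b', c'⟩
  cases c <;> cases c' <;> simp [mul_def, ent, pow_add]

lemma ent_mul1 (s t : Sm) : ent 1 (s * t) = ent 0 s * ent 1 t + ent 1 s * ent 3 t := by
  rcases s with ⟨a, b, c⟩
  rcases t with ⟨a', b', c'⟩
  cases c <;> cases c' <;> simp [mul_def, ent, pow_add]

lemma ent_mul2 (s t : Sm) : ent 2 (s * t) = ent 2 s * ent 0 t + ent 3 s * ent 2 t := by
  rcases s with ⟨a, b, c⟩
  rcases t with ⟨a', b', c'⟩
  cases c <;> cases c' <;> simp [mul_def, ent, pow_add]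

lemma ent_mul3 (s t : Sm) : ent 3 (s * t) = ent 2 s * ent 1 t + ent 3 s * ent 3 t := by
  rcases s with ⟨a, b, c⟩
  rcases t with ⟨a', b', c'⟩
  cases c <;> cases c' <;> simp [mul_def, ent, pow_add]

lemma ent_mul4 (s t : Sm) : ent 4 (s * t) = ent 4 s * ent 4 t := by
  rcases s with ⟨a, b, c⟩
  rcases t with ⟨a', b', c'⟩
  cases c <;> cases c' <;> simp [mul_def, ent, pow_add] <;> ring

end Sm

/-! ### The F-algebra -/

section

open scoped BoundedContinuousFunction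

/-- the pairing of `ℓ^∞` and `ℓ¹` -/
noncomputable def dualFun (f : Sm →ᵇ ℂ) : L1 Sm →L[ℂ] ℂ :=
  L1.lift (fun s => f s) ‖f‖ (fun s => f.norm_coe_le_norm s)

lemma dualFun_δ (f : Sm →ᵇ ℂ) (s : Sm) : dualFun f (L1.δ s) = f s := L1.lift_δ _ _ _ s

/-- the duality of `ℓ¹` and `ℓ^∞` -/
noncomputable def dualMap : (Sm →ᵇ ℂ) ≃ₗᵢ[ℂ] (L1 Sm →L[ℂ] ℂ) where
  toFun := dualFun
  invFun φ := BoundedContinuousFunction.ofNormedAddCommGroupDiscrete (fun s => φ (L1.δ s)) ‖φ‖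
    (fun s => by
      have := φ.le_opNorm (L1.δ s)
      rwa [L1.norm_δ, mul_one] at this)
  left_inv f := by
    ext s
    exact L1.lift_δ _ _ _ s
  right_inv φ := by
    refine L1.ext_δ (fun s => ?_)
    exact L1.lift_δ _ _ _ s
  map_add' f g := by
    refine L1.ext_δ (fun s => ?_)
    have : (dualFun f + dualFun g) (L1.δ s) = dualFun f (L1.δ s) + dualFun g (L1.δ s) := rfl
    rw [this, dualFun_δ, dualFun_δ, dualFun_δ]
    rfl
  map_smul' c f := by
    refine L1.ext_δ (fun s => ?_)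
    have : (c • dualFun f) (L1.δ s) = c • dualFun f (L1.δ s) := rfl
    rw [RingHom.id_apply, this, dualFun_δ, dualFun_δ]
    rfl
  norm_map' f := by
    show ‖dualFun f‖ = ‖f‖
    refine le_antisymm (L1.norm_lift_le _ (norm_nonneg f) _) ?_
    refine (BoundedContinuousFunction.norm_le (norm_nonneg _)).mpr (fun s => ?_)
    have h1 := (dualFun f).le_opNorm (L1.δ s)
    rw [L1.norm_δ, mul_one, dualFun_δ] at h1
    exact h1

lemma dualMap_δ (f : Sm →ᵇ ℂ) (s : Sm) : dualMap f (L1.δ s) = f s := dualFun_δ f s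

/-- bilinear identities can be checked on point masses -/
lemma bilin_ext (φ : L1 Sm →L[ℂ] ℂ) (ψ : L1 Sm →L[ℂ] (L1 Sm →L[ℂ] ℂ))
    (h : ∀ s t : Sm, φ (L1.δ (s * t)) = ψ (L1.δ s) (L1.δ t)) (a b : L1 Sm) :
    φ (a * b) = ψ a b := by
  have e : ((ContinuousLinearMap.compL ℂ (L1 Sm) (L1 Sm) ℂ) φ).comp L1.mulL = ψ := by
    refine L1.ext_δ (fun s => L1.ext_δ (fun t => ?_))
    rw [← h]
    show φ (L1.mulL (L1.δ s) (L1.δ t)) = _
    rw [L1.mulL_δ]
  rw [← e]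
  rfl

instance : Nontrivial (Sm →ᵇ ℂ) := by
  refine ⟨0, 1, fun h => ?_⟩
  have := DFunLike.congr_fun h (1 : Sm)
  simp at this

/-- the F-algebra `ℓ¹(ℕ² ⋊ ℤ/2)` -/
noncomputable def F₀ : FAlg where
  A := L1 Sm
  W := Sm →ᵇ ℂ
  dual := dualMap
  mult a b := by
    refine bilin_ext (dualMap 1) ((dualMap 1).smulRight (dualMap 1)) (fun s t => ?_) a b
    show dualMap 1 (L1.δ (s * t)) = dualMap 1 (L1.δ s) • dualMap 1 (L1.δ t)
    rw [dualMap_δ, dualMap_δ, dualMap_δ]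
    simp

end

end Pool.Agent.Work.MP_12dd5c_an
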