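import Pool.Agent.Work.MP_12dd5c_an.Mean

/-!
# Failure of the invariant subspace property
-/

set_option autoImplicit false
set_option maxSynthPendingDepth 3

namespace Pool.Agent.Work.MP_12dd5c_an

open Topology Filter unitInterval Q Impl

variable (𝕜 : Type) [RCLike 𝕜]

open Classical in
/-- the representation -/
noncomputable def TT (a : F₀.A) : ESp 𝕜 →ₗ[𝕜] ESp 𝕜 :=
  if h : par a ∈ QSet then Tq ⟨par a, h⟩ else 0

variable {𝕜}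

lemma TT_eq {a : L1 Sm} (ha : a ∈ P1 F₀) : TT 𝕜 a = Tq ⟨par a, par_mem ha⟩ :=
  dif_pos (par_mem ha)

lemma TT_apply {a : L1 Sm} (ha : a ∈ P1 F₀) (ψ : ESp 𝕜) (h : C(I, 𝕜)) :
    TT 𝕜 a ψ h = ψ (G h ⟨par a, par_mem ha⟩) := by
  rw [TT_eq ha]; rfl

lemma isEquiRep : IsEquiRep F₀ (TT 𝕜) where
  mul s hs t ht := by
    have hs' : s ∈ P1 F₀ := hs
    have e1 : par (show L1 Sm from s * t) = mulQ (par s) (par t) := par_mul hs ht
    have hmem : par (show L1 Sm from s * t) ∈ QSet := by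
      rw [e1]; exact mulQ_mem (par_mem hs) (par_mem ht)
    have e2 : TT 𝕜 (s * t) = Tq ⟨par (show L1 Sm from s * t), hmem⟩ := dif_pos hmem
    rw [e2, TT_eq hs, TT_eq ht]
    exact Tq_mul _ _ _ e1
  cont ψ := by
    rw [continuousOn_iff_continuous_domRestrict]
    have hmem : ∀ s : P1 F₀, par (show L1 Sm from (s : F₀.A)) ∈ QSet := fun s => par_mem s.2
    have e : (P1 F₀).domRestrict (fun s => TT 𝕜 s ψ)
        = fun s : P1 F₀ => Tq ⟨par (show L1 Sm from (s : F₀.A)), hmem s⟩ ψ := by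
      funext s
      show TT 𝕜 (s : F₀.A) ψ = _
      rw [TT_eq s.2]
    rw [e]
    refine (continuous_Tq_param ψ).comp ?_
    have hc : Continuous fun s : P1 F₀ => par (show L1 Sm from (s : F₀.A)) :=
      continuous_par.comp continuous_subtype_val
    exact Continuous.subtype_mk hc _
  equi K hK x hx U hU := by
    obtain ⟨V, hV, h⟩ := equi hK hx hU
    refine ⟨V, hV, fun y hy s hs => ?_⟩
    rw [TT_eq hs]
    exact h y hy _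

lemma TT_continuous {s : F₀.A} (hs : s ∈ P1 F₀) : Continuous (TT 𝕜 s) := by
  rw [TT_eq hs]
  exact continuous_Tq _

lemma TT_unif (x : ESp 𝕜) (U : Set (ESp 𝕜)) (hU : U ∈ 𝓝 (0 : ESp 𝕜)) :
    ∃ δ > 0, ∀ s ∈ P1 F₀, ∀ t ∈ P1 F₀, ‖s - t‖ < δ → TT 𝕜 s x - TT 𝕜 t x ∈ U := by
  obtain ⟨δ, hδ, h⟩ := unif x hU
  refine ⟨δ, hδ, fun s hs t ht hst => ?_⟩
  rw [TT_eq hs, TT_eq ht]
  exact h _ _ ((dist_par_le s t).trans_lt hst)

lemma isLCS : IsLCS 𝕜 (ESp 𝕜) where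
  group := inferInstance
  smul := inferInstance
  t2 := inferInstance
  convex := ⟨C(I, 𝕜), ⟨0⟩, WeakDual.seminormFamily 𝕜 C(I, 𝕜),
    WeakDual.withSeminorms 𝕜 C(I, 𝕜)⟩

/-- the cone over the states -/
def XX : Set (ESp 𝕜) := {ψ | ∀ h : C(I, 𝕜), ‖ψ h‖ ≤ ‖ψ 1‖ * ‖h‖}

/-- evaluation at the constant function -/
noncomputable def ev1 : ESp 𝕜 →ₗ[𝕜] 𝕜 where
  toFun ψ := ψ 1
  map_add' _ _ := rfl
  map_smul' _ _ := rfl

/-- the point evaluations -/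
noncomputable def pt (x : I) : ESp 𝕜 :=
  StrongDual.toWeakDual (LinearMap.mkContinuous
    { toFun := fun h : C(I, 𝕜) => h x
      map_add' := fun _ _ => rfl
      map_smul' := fun _ _ => rfl } 1 (fun h => by
        rw [one_mul]; exact h.norm_coe_le_norm x))

lemma pt_apply (x : I) (h : C(I, 𝕜)) : (pt x : ESp 𝕜) h = h x := rfl

lemma pt_mem (x : I) : (pt x : ESp 𝕜) ∈ XX := by
  intro h
  rw [pt_apply, pt_apply, ContinuousMap.one_apply, norm_one, one_mul]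
  exact h.norm_coe_le_norm x

lemma smul_mem_XX {ψ : ESp 𝕜} (hψ : ψ ∈ XX) (c : 𝕜) : c • ψ ∈ XX := by
  intro h
  show ‖c • ψ h‖ ≤ ‖c • ψ 1‖ * ‖h‖
  rw [norm_smul, norm_smul, mul_assoc]
  exact mul_le_mul_of_nonneg_left (hψ h) (norm_nonneg c)

lemma eq_zero_of_XX {ψ : ESp 𝕜} (hψ : ψ ∈ XX) (h1 : ψ 1 = 0) : ψ = 0 := by
  refine DFunLike.ext _ _ fun h => ?_
  have := hψ h
  rw [h1, norm_zero, zero_mul] at this
  exact norm_le_zero_iff.mp this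

lemma G_one (q : Q) : G (1 : C(I, 𝕜)) q = (((q : Fin 5 → ℝ) 4 : ℝ) : 𝕜) • 1 := by
  ext x
  rw [G_apply, ContinuousMap.smul_apply, ContinuousMap.one_apply, ContinuousMap.one_apply,
    smul_eq_mul]

lemma TT_one {a : L1 Sm} (ha : a ∈ P1 F₀) (ψ : ESp 𝕜) :
    TT 𝕜 a ψ 1 = ((par a 4 : ℝ) : 𝕜) * ψ 1 := by
  rw [TT_apply ha, G_one]
  show ψ (((par a 4 : ℝ) : 𝕜) • 1) = _
  rw [map_smul, smul_eq_mul]

lemma TT_mem_XX {a : L1 Sm} (ha : a ∈ P1 F₀) {ψ : ESp 𝕜} (hψ : ψ ∈ XX) : TT 𝕜 a ψ ∈ XX := by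
  intro h
  rw [TT_one ha, TT_apply ha, norm_mul, RCLike.norm_ofReal, abs_of_nonneg (par_nonneg ha 4)]
  calc ‖ψ (G h ⟨par a, par_mem ha⟩)‖ ≤ ‖ψ 1‖ * ‖G h ⟨par a, par_mem ha⟩‖ := hψ _
    _ ≤ ‖ψ 1‖ * (par a 4 * ‖h‖) := by
        gcongr
        exact norm_G_le h _
    _ = par a 4 * ‖ψ 1‖ * ‖h‖ := by ring

lemma isConsistent : IsConsistent F₀ (TT 𝕜) 1 (XX : Set (ESp 𝕜)) := by
  refine ⟨⟨Submodule.span 𝕜 {pt ⟨1 / 2, by norm_num, by norm_num⟩}, ?_, ?_⟩, ?_⟩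
  · refine finrank_span_singleton ?_
    intro h
    have := DFunLike.congr_fun h (1 : C(I, 𝕜))
    rw [pt_apply] at this
    exact one_ne_zero this
  · intro ψ hψ
    obtain ⟨c, rfl⟩ := Submodule.mem_span_singleton.mp hψ
    exact smul_mem_XX (pt_mem _) c
  · rintro L ⟨hL1, hL2⟩ s hs
    refine ⟨?_, ?_⟩
    · have hinj : Function.Injective ((TT 𝕜 s).domRestrict L) := by
        rw [injective_iff_map_eq_zero]
        rintro ⟨ψ, hψ⟩ h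
        have h1 : TT 𝕜 s ψ = 0 := h
        have h2 : TT 𝕜 s ψ 1 = 0 := by rw [h1]; rfl
        rw [TT_one hs] at h2
        have h3 : ψ 1 = 0 := by
          rcases mul_eq_zero.mp h2 with h4 | h4
          · exact absurd (RCLike.ofReal_eq_zero.mp h4) (par4_pos hs).ne'
          · exact h4
        exact Subtype.ext (eq_zero_of_XX (hL2 hψ) h3)
      have h4 := LinearMap.finrank_range_of_inj hinj
      have h5 : LinearMap.range ((TT 𝕜 s).domRestrict L) = L.map (TT 𝕜 s) := by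
        rw [LinearMap.range_domRestrict]
      rw [h5] at h4
      exact h4.trans hL1
    · rintro _ ⟨ψ, hψ, rfl⟩
      exact TT_mem_XX hs (hL2 hψ)

lemma isClosedInvariant : IsClosedInvariant F₀ (TT 𝕜) 1 (LinearMap.ker (ev1 (𝕜 := 𝕜))) := by
  refine ⟨?_, ?_, ?_⟩
  · have e : ((LinearMap.ker (ev1 (𝕜 := 𝕜)) : Submodule 𝕜 (ESp 𝕜)) : Set (ESp 𝕜))
        = (fun ψ : ESp 𝕜 => ψ (1 : C(I, 𝕜))) ⁻¹' {0} := by
      ext ψ
      rfl
    rw [e]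
    exact isClosed_singleton.preimage (WeakDual.eval_continuous _)
  · intro s hs ψ hψ
    have h1 : ψ 1 = 0 := hψ
    show TT 𝕜 s ψ 1 = 0
    rw [TT_one hs, h1, mul_zero]
  · have hsurj : Function.Surjective (ev1 (𝕜 := 𝕜)) := by
      intro c
      refine ⟨c • pt ⟨1 / 2, by norm_num, by norm_num⟩, ?_⟩
      show c • (pt _ : ESp 𝕜) 1 = c
      rw [pt_apply, ContinuousMap.one_apply, smul_eq_mul, mul_one]
    have h1 := (LinearMap.quotKerEquivOfSurjective _ hsurj).finrank_eq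
    rw [h1]
    exact Module.finrank_self 𝕜

lemma mem_sect_iff (x y : ESp 𝕜) : y ∈ sect (LinearMap.ker (ev1 (𝕜 := 𝕜))) XX x ↔
    y 1 = x 1 ∧ ∀ h : C(I, 𝕜), ‖y h‖ ≤ ‖x 1‖ * ‖h‖ := by
  constructor
  · rintro ⟨h1, h2⟩
    have h3 : y 1 - x 1 = 0 := h1
    have h4 : y 1 = x 1 := sub_eq_zero.mp h3
    refine ⟨h4, fun h => ?_⟩
    rw [← h4]
    exact h2 h
  · rintro ⟨h1, h2⟩
    refine ⟨?_, ?_⟩
    · show y 1 - x 1 = 0
      rw [h1, sub_self]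
    · intro h
      rw [h1]
      exact h2 h

lemma isCompact_sect (x : ESp 𝕜) :
    IsCompact (sect (LinearMap.ker (ev1 (𝕜 := 𝕜))) XX x) := by
  have hK := WeakDual.isCompact_closedBall (𝕜 := 𝕜) (E := C(I, 𝕜)) 0 ‖x 1‖
  refine hK.of_isClosed_subset ?_ ?_
  · have e : sect (LinearMap.ker (ev1 (𝕜 := 𝕜))) XX x
        = {y : ESp 𝕜 | y 1 = x 1} ∩ ⋂ h : C(I, 𝕜), {y : ESp 𝕜 | ‖y h‖ ≤ ‖x 1‖ * ‖h‖} := by
      ext y
      rw [mem_sect_iff]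
      simp
    rw [e]
    refine IsClosed.inter ?_ (isClosed_iInter fun h => ?_)
    · exact isClosed_eq (WeakDual.eval_continuous _) continuous_const
    · exact isClosed_le (WeakDual.eval_continuous h).norm continuous_const
  · intro y hy
    rw [mem_sect_iff] at hy
    show WeakDual.toStrongDual y ∈ Metric.closedBall (0 : StrongDual 𝕜 C(I, 𝕜)) ‖x 1‖
    rw [mem_closedBall_zero_iff]
    exact ContinuousLinearMap.opNorm_le_bound _ (norm_nonneg _) hy.2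

lemma convex_sect (x : ESp 𝕜) : ∀ y ∈ sect (LinearMap.ker (ev1 (𝕜 := 𝕜))) XX x,
    ∀ z ∈ sect (LinearMap.ker (ev1 (𝕜 := 𝕜))) XX x, ∀ r : ℝ, 0 ≤ r → r ≤ 1 →
      (r : 𝕜) • y + ((1 - r : ℝ) : 𝕜) • z ∈ sect (LinearMap.ker (ev1 (𝕜 := 𝕜))) XX x := by
  intro y hy z hz r hr0 hr1
  rw [mem_sect_iff] at hy hz ⊢
  have happ : ∀ h : C(I, 𝕜), ((r : 𝕜) • y + ((1 - r : ℝ) : 𝕜) • z) h
      = (r : 𝕜) * y h + ((1 - r : ℝ) : 𝕜) * z h := fun h => rfl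
  refine ⟨?_, fun h => ?_⟩
  · rw [happ, hy.1, hz.1]
    push_cast
    ring
  · rw [happ]
    calc ‖(r : 𝕜) * y h + ((1 - r : ℝ) : 𝕜) * z h‖
        ≤ ‖(r : 𝕜) * y h‖ + ‖((1 - r : ℝ) : 𝕜) * z h‖ := norm_add_le _ _
      _ = r * ‖y h‖ + (1 - r) * ‖z h‖ := by
          rw [norm_mul, norm_mul, RCLike.norm_ofReal, RCLike.norm_ofReal, abs_of_nonneg hr0,
            abs_of_nonneg (by linarith)]
      _ ≤ r * (‖x 1‖ * ‖h‖) + (1 - r) * (‖x 1‖ * ‖h‖) := by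
          have h1 := hy.2 h
          have h2 := hz.2 h
          have h3 : 0 ≤ 1 - r := by linarith
          gcongr
      _ = ‖x 1‖ * ‖h‖ := by ring

/-- the identity function on the interval -/
noncomputable def idI : C(I, 𝕜) :=
  ⟨fun x => ((x : ℝ) : 𝕜), RCLike.continuous_ofReal.comp continuous_subtype_val⟩

/-- the element `(1 + P) / 2` -/
noncomputable def pp : L1 Sm := (1 / 2 : ℂ) • (L1.δ 1 + L1.δ Sm.P)

lemma pp_mem : pp ∈ P1 F₀ := half_mem (δ_mem _) (δ_mem _)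

lemma par_pp (i : Fin 5) : par pp i = (1 / 2) * (Sm.ent i 1 + Sm.ent i Sm.P) := by
  unfold pp
  rw [par_half, par_δ, par_δ]

lemma ent_vals : (Sm.ent 0 1 = 1 ∧ Sm.ent 1 1 = 0 ∧ Sm.ent 2 1 = 0 ∧ Sm.ent 3 1 = 1 ∧
    Sm.ent 4 1 = 1) ∧ (Sm.ent 0 Sm.P = 0 ∧ Sm.ent 1 Sm.P = 1 ∧ Sm.ent 2 Sm.P = 1 ∧
    Sm.ent 3 Sm.P = 0 ∧ Sm.ent 4 Sm.P = 1) ∧ (Sm.ent 0 Sm.D = 1 / 2 ∧ Sm.ent 1 Sm.D = 0 ∧
    Sm.ent 2 Sm.D = 0 ∧ Sm.ent 3 Sm.D = 1 ∧ Sm.ent 4 Sm.D = 1 / 2) := by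
  refine ⟨⟨?_, ?_, ?_, ?_, ?_⟩, ⟨?_, ?_, ?_, ?_, ?_⟩, ⟨?_, ?_, ?_, ?_, ?_⟩⟩ <;>
    simp [Sm.ent, Sm.one_def, Sm.P, Sm.D]

lemma phi_pp (x : I) : ((phi (par pp) x : I) : ℝ) = 1 / 2 := by
  have h := phi_val ⟨par pp, par_mem pp_mem⟩ x
  obtain ⟨⟨a0, a1, a2, a3, a4⟩, ⟨b0, b1, b2, b3, b4⟩, -⟩ := ent_vals
  have e0 : par pp 0 = 1 / 2 := by rw [par_pp, a0, b0]; norm_num
  have e1 : par pp 1 = 1 / 2 := by rw [par_pp, a1, b1]; norm_num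
  have e2 : par pp 2 = 1 / 2 := by rw [par_pp, a2, b2]; norm_num
  have e3 : par pp 3 = 1 / 2 := by rw [par_pp, a3, b3]; norm_num
  have h1 : num (par pp) x = 1 / 2 := by
    unfold num; rw [e0, e1]; ring
  have h2 : den (par pp) x = 1 := by
    unfold den; rw [e0, e1, e2, e3]; ring
  refine h.trans ?_
  show num (par pp) x / den (par pp) x = 1 / 2
  rw [h1, h2, div_one]

lemma phi_D {x : I} (hx : (x : ℝ) = 1 / 2) : ((phi (par (L1.δ Sm.D)) x : I) : ℝ) = 1 / 3 := by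
  have h := phi_val ⟨par (L1.δ Sm.D), par_mem (δ_mem Sm.D)⟩ x
  obtain ⟨-, -, ⟨c0, c1, c2, c3, c4⟩⟩ := ent_vals
  have e0 : par (L1.δ Sm.D) 0 = 1 / 2 := by rw [par_δ, c0]
  have e1 : par (L1.δ Sm.D) 1 = 0 := by rw [par_δ, c1]
  have e2 : par (L1.δ Sm.D) 2 = 0 := by rw [par_δ, c2]
  have e3 : par (L1.δ Sm.D) 3 = 1 := by rw [par_δ, c3]
  have h1 : num (par (L1.δ Sm.D)) x = 1 / 4 := by
    unfold num; rw [e0, e1, hx]; norm_num
  have h2 : den (par (L1.δ Sm.D)) x = 3 / 4 := by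
    unfold den; rw [e0, e1, e2, e3, hx]; norm_num
  refine h.trans ?_
  show num (par (L1.δ Sm.D)) x / den (par (L1.δ Sm.D)) x = 1 / 3
  rw [h1, h2]
  norm_num

/-- there is no common invariant line -/
lemma no_invariant (L : Submodule 𝕜 (ESp 𝕜)) (hL : L ∈ Lsub 𝕜 1 (XX : Set (ESp 𝕜)))
    (hinv : ∀ s ∈ P1 F₀, L.map (TT 𝕜 s) = L) : False := by
  obtain ⟨hL1, hL2⟩ := hL
  have hne : L ≠ ⊥ := by
    rintro rfl
    rw [finrank_bot] at hL1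
    exact zero_ne_one hL1
  obtain ⟨ψ, hψ, hψ0⟩ := L.ne_bot_iff.mp hne
  have h1 : ψ 1 ≠ 0 := fun h => hψ0 (eq_zero_of_XX (hL2 hψ) h)
  -- the midpoint evaluation
  set x₀ : I := ⟨1 / 2, by norm_num, by norm_num⟩ with hx₀
  have hφ : ∀ x : I, phi (par pp) x = x₀ := fun x => Subtype.ext (phi_pp x)
  have h2 : TT 𝕜 pp ψ = (((par pp 4 : ℝ) : 𝕜) * ψ 1) • pt x₀ := by
    refine DFunLike.ext _ _ fun h => ?_
    rw [TT_apply pp_mem]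
    have e : G h ⟨par pp, par_mem pp_mem⟩ = (((par pp 4 : ℝ) : 𝕜) * h x₀) • 1 := by
      ext x
      rw [G_apply, hφ]
      simp
    rw [e, map_smul]
    show (((par pp 4 : ℝ) : 𝕜) * h x₀) * ψ 1 = (((par pp 4 : ℝ) : 𝕜) * ψ 1) * h x₀
    ring
  have h3 : TT 𝕜 pp ψ ∈ L := by
    have : TT 𝕜 pp ψ ∈ L.map (TT 𝕜 pp) := ⟨ψ, hψ, rfl⟩
    rwa [hinv pp pp_mem] at this
  have hc : ((par pp 4 : ℝ) : 𝕜) * ψ 1 ≠ 0 :=
    mul_ne_zero (by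
      rw [Ne, RCLike.ofReal_eq_zero]
      exact (par4_pos pp_mem).ne') h1
  have h4 : (pt x₀ : ESp 𝕜) ∈ L := by
    rw [h2] at h3
    exact (L.smul_mem_iff hc).mp h3
  -- its image under `D`
  set x₁ : I := phi (par (L1.δ Sm.D)) x₀ with hx₁
  have hx₁' : (x₁ : ℝ) = 1 / 3 := phi_D rfl
  have h5 : TT 𝕜 (L1.δ Sm.D) (pt x₀) = ((par (L1.δ Sm.D) 4 : ℝ) : 𝕜) • pt x₁ := by
    refine DFunLike.ext _ _ fun h => ?_
    rw [TT_apply (δ_mem _), pt_apply, G_apply]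
    rfl
  have h6 : TT 𝕜 (L1.δ Sm.D) (pt x₀) ∈ L := by
    have : TT 𝕜 (L1.δ Sm.D) (pt x₀) ∈ L.map (TT 𝕜 (L1.δ Sm.D)) := ⟨_, h4, rfl⟩
    rwa [hinv _ (δ_mem _)] at this
  have hc' : ((par (L1.δ Sm.D) 4 : ℝ) : 𝕜) ≠ 0 := by
    rw [Ne, RCLike.ofReal_eq_zero]
    exact (par4_pos (δ_mem _)).ne'
  have h7 : (pt x₁ : ESp 𝕜) ∈ L := by
    rw [h5] at h6
    exact (L.smul_mem_iff hc').mp h6
  have h8 : (pt x₁ - pt x₀ : ESp 𝕜) ∈ XX := hL2 (L.sub_mem h7 h4)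
  have h9 : (pt x₁ - pt x₀ : ESp 𝕜) 1 = 0 := by
    show (pt x₁ : ESp 𝕜) 1 - (pt x₀ : ESp 𝕜) 1 = 0
    rw [pt_apply, pt_apply, ContinuousMap.one_apply, ContinuousMap.one_apply, sub_self]
  have h10 := eq_zero_of_XX h8 h9
  have h11 := DFunLike.congr_fun h10 (idI : C(I, 𝕜))
  have h12 : ((x₁ : ℝ) : 𝕜) - ((x₀ : ℝ) : 𝕜) = 0 := h11
  rw [← RCLike.ofReal_sub, RCLike.ofReal_eq_zero, hx₁'] at h12
  have h13 : (x₀ : ℝ) = 1 / 2 := rfl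
  rw [h13] at h12
  norm_num at h12

theorem not_weak : ¬ WeakPropertyFA F₀ 𝕜 1 := by
  intro h
  obtain ⟨L, hL, hinv⟩ := h (ESp 𝕜) isLCS (TT 𝕜) isEquiRep (fun s hs => TT_continuous hs)
    TT_unif XX isConsistent ⟨LinearMap.ker ev1, isClosedInvariant, fun x =>
      ⟨isCompact_sect x, convex_sect x⟩⟩
  exact no_invariant L hL hinv

theorem not_property : ¬ PropertyFA F₀ 𝕜 1 := by
  intro h
  obtain ⟨L, hL, hinv⟩ := h (ESp 𝕜) isLCS (TT 𝕜) isEquiRep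
    XX isConsistent ⟨LinearMap.ker ev1, isClosedInvariant, isCompact_sect⟩
  exact no_invariant L hL hinv

end Pool.Agent.Work.MP_12dd5c_an
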