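import Mathlib

/-!
# The convolution algebra `ℓ¹(S)` of a discrete monoid
-/

set_option autoImplicit false
set_option maxSynthPendingDepth 3

namespace Pool.Agent.Work.MP_12dd5c_an

open scoped ENNReal

/-- `ℓ¹(S)` -/
def L1 (S : Type) : Type := lp (fun _ : S => ℂ) 1

section

variable {S : Type}

noncomputable instance : NormedAddCommGroup (L1 S) :=
  inferInstanceAs (NormedAddCommGroup (lp (fun _ : S => ℂ) 1))

noncomputable instance : NormedSpace ℂ (L1 S) :=
  inferInstanceAs (NormedSpace ℂ (lp (fun _ : S => ℂ) 1))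

instance : CompleteSpace (L1 S) :=
  inferInstanceAs (CompleteSpace (lp (fun _ : S => ℂ) 1))

/-- coordinates -/
def L1.coord (f : L1 S) (s : S) : ℂ := (show lp (fun _ : S => ℂ) 1 from f) s

open Classical in
/-- point masses -/
noncomputable def L1.δ (s : S) : L1 S := (lp.single 1 s (1 : ℂ) : lp (fun _ : S => ℂ) 1)

namespace L1

lemma coord_add (f g : L1 S) (s : S) : coord (f + g) s = coord f s + coord g s := rfl

lemma coord_smul (c : ℂ) (f : L1 S) (s : S) : coord (c • f) s = c * coord f s := rfl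

lemma coord_δ_self (s : S) : coord (δ s) s = 1 := by
  classical
  exact lp.single_apply_self (E := fun _ : S => ℂ) 1 s (1 : ℂ)

lemma coord_δ_ne {s t : S} (h : t ≠ s) : coord (δ s) t = 0 := by
  classical
  exact lp.single_apply_ne (E := fun _ : S => ℂ) 1 s (1 : ℂ) h

lemma norm_δ (s : S) : ‖(δ s : L1 S)‖ = 1 := by
  classical
  have := lp.norm_single (E := fun _ : S => ℂ) (p := 1) (by norm_num) s (1 : ℂ)
  rw [norm_one] at this
  exact this

lemma hasSum_norm (f : L1 S) : HasSum (fun s => ‖coord f s‖) ‖f‖ := by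
  have := lp.hasSum_norm (E := fun _ : S => ℂ) (p := 1) (by norm_num) f
  simp only [ENNReal.toReal_one, Real.rpow_one] at this
  exact this

lemma summable_norm (f : L1 S) : Summable (fun s => ‖coord f s‖) := (hasSum_norm f).summable

lemma hasSum_δ (f : L1 S) : HasSum (fun s => coord f s • (δ s : L1 S)) f := by
  classical
  have h := lp.hasSum_single (E := fun _ : S => ℂ) (p := 1) (by norm_num) f
  refine h.congr_fun ?_
  intro s
  have := lp.single_smul (𝕜 := ℂ) (E := fun _ : S => ℂ) 1 s (coord f s) (1 : ℂ)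
  rw [smul_eq_mul, mul_one] at this
  exact this.symm

variable {Y : Type*} [NormedAddCommGroup Y] [NormedSpace ℂ Y]

lemma ext_δ {φ ψ : L1 S →L[ℂ] Y} (h : ∀ s, φ (δ s) = ψ (δ s)) : φ = ψ := by
  ext f
  have h1 := φ.hasSum (hasSum_δ f)
  have h2 := ψ.hasSum (hasSum_δ f)
  have h3 : (fun s => φ (coord f s • (δ s : L1 S))) = fun s => ψ (coord f s • (δ s : L1 S)) := by
    funext s
    rw [map_smul, map_smul, h s]
  rw [h3] at h1
  exact h1.unique h2

variable [CompleteSpace Y]

lemma summable_lift {x : S → Y} {C : ℝ} (hx : ∀ s, ‖x s‖ ≤ C) (f : L1 S) :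
    Summable (fun s => coord f s • x s) := by
  refine Summable.of_norm_bounded ((summable_norm f).mul_right C) (fun s => ?_)
  rw [norm_smul]
  exact mul_le_mul_of_nonneg_left (hx s) (norm_nonneg _)

/-- the universal property of `ℓ¹(S)` -/
noncomputable def lift (x : S → Y) (C : ℝ) (hx : ∀ s, ‖x s‖ ≤ C) : L1 S →L[ℂ] Y :=
  LinearMap.mkContinuous
    { toFun := fun f => ∑' s, coord f s • x s
      map_add' := fun f g => by
        rw [← (summable_lift hx f).tsum_add (summable_lift hx g)]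
        congr 1
        funext s
        rw [coord_add, add_smul]
      map_smul' := fun c f => by
        rw [RingHom.id_apply, ← (summable_lift hx f).tsum_const_smul c]
        congr 1
        funext s
        rw [coord_smul, mul_smul] }
    C (fun f => by
      show ‖∑' s, coord f s • x s‖ ≤ C * ‖f‖
      have h1 : ∀ s, ‖coord f s • x s‖ ≤ ‖coord f s‖ * C := fun s => by
        rw [norm_smul]
        exact mul_le_mul_of_nonneg_left (hx s) (norm_nonneg _)
      have h2 := ((hasSum_norm f).mul_right C)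
      calc ‖∑' s, coord f s • x s‖ ≤ ‖f‖ * C :=
            tsum_of_norm_bounded h2 h1
        _ = C * ‖f‖ := mul_comm _ _)

lemma lift_apply (x : S → Y) (C : ℝ) (hx : ∀ s, ‖x s‖ ≤ C) (f : L1 S) :
    lift x C hx f = ∑' s, coord f s • x s := rfl

lemma lift_δ (x : S → Y) (C : ℝ) (hx : ∀ s, ‖x s‖ ≤ C) (s : S) : lift x C hx (δ s) = x s := by
  rw [lift_apply, tsum_eq_single s, coord_δ_self, one_smul]
  intro t ht
  rw [coord_δ_ne ht, zero_smul]

lemma norm_lift_le (x : S → Y) {C : ℝ} (hC : 0 ≤ C) (hx : ∀ s, ‖x s‖ ≤ C) :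
    ‖lift x C hx‖ ≤ C := LinearMap.mkContinuous_norm_le _ hC _

end L1

end

section algebra

variable {S : Type} [Monoid S]

namespace L1

/-- convolution as a bounded bilinear map -/
noncomputable def mulL : L1 S →L[ℂ] (L1 S →L[ℂ] L1 S) :=
  lift (fun s => lift (fun t => δ (s * t)) 1 (fun _ => (norm_δ _).le)) 1
    (fun _ => norm_lift_le _ zero_le_one _)

lemma mulL_δ (s t : S) : mulL (δ s) (δ t) = δ (s * t) := by
  rw [mulL, lift_δ, lift_δ]

lemma norm_mulL_le (f g : L1 S) : ‖mulL f g‖ ≤ ‖f‖ * ‖g‖ := by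
  have h1 : ‖(mulL : L1 S →L[ℂ] (L1 S →L[ℂ] L1 S))‖ ≤ 1 := norm_lift_le _ zero_le_one _
  calc ‖mulL f g‖ ≤ ‖mulL f‖ * ‖g‖ := (mulL f).le_opNorm g
    _ ≤ (‖(mulL : L1 S →L[ℂ] (L1 S →L[ℂ] L1 S))‖ * ‖f‖) * ‖g‖ := by
        gcongr; exact mulL.le_opNorm f
    _ ≤ (1 * ‖f‖) * ‖g‖ := by gcongr
    _ = ‖f‖ * ‖g‖ := by rw [one_mul]

lemma mulL_assoc (f g h : L1 S) : mulL (mulL f g) h = mulL f (mulL g h) := by
  have e1 : ∀ s t, (mulL (mulL (δ s) (δ t)) : L1 S →L[ℂ] L1 S)
      = (mulL (δ s)).comp (mulL (δ t)) := by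
    intro s t
    refine ext_δ (fun u => ?_)
    rw [ContinuousLinearMap.comp_apply, mulL_δ, mulL_δ, mulL_δ, mulL_δ, mul_assoc]
  have e2 : ∀ s, ((mulL : L1 S →L[ℂ] (L1 S →L[ℂ] L1 S)).flip h).comp (mulL (δ s))
      = (mulL (δ s)).comp ((mulL : L1 S →L[ℂ] (L1 S →L[ℂ] L1 S)).flip h) := by
    intro s
    refine ext_δ (fun t => ?_)
    exact DFunLike.congr_fun (e1 s t) h
  have e3 : ((mulL : L1 S →L[ℂ] (L1 S →L[ℂ] L1 S)).flip h).comp
      ((mulL : L1 S →L[ℂ] (L1 S →L[ℂ] L1 S)).flip g)
      = (mulL : L1 S →L[ℂ] (L1 S →L[ℂ] L1 S)).flip (mulL g h) := by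
    refine ext_δ (fun s => ?_)
    exact DFunLike.congr_fun (e2 s) g
  exact DFunLike.congr_fun e3 f

noncomputable instance : Mul (L1 S) := ⟨fun f g => mulL f g⟩

noncomputable instance : One (L1 S) := ⟨δ 1⟩

lemma mul_def (f g : L1 S) : f * g = mulL f g := rfl

lemma one_def : (1 : L1 S) = δ 1 := rfl

noncomputable instance : NormedRing (L1 S) :=
  { (inferInstance : NormedAddCommGroup (L1 S)) with
    mul := fun f g => mulL f g
    one := δ 1
    left_distrib := fun a b c => by
      show mulL a (b + c) = mulL a b + mulL a c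
      rw [map_add]
    right_distrib := fun a b c => by
      show mulL (a + b) c = mulL a c + mulL b c
      rw [map_add]; rfl
    zero_mul := fun a => by
      show mulL 0 a = 0
      rw [map_zero]; rfl
    mul_zero := fun a => by
      show mulL a 0 = 0
      rw [map_zero]
    mul_assoc := mulL_assoc
    one_mul := fun a => by
      show mulL (δ 1) a = a
      have : (mulL (δ 1) : L1 S →L[ℂ] L1 S) = ContinuousLinearMap.id ℂ (L1 S) := by
        refine ext_δ (fun s => ?_)
        rw [mulL_δ, one_mul]; rfl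
      rw [this]; rfl
    mul_one := fun a => by
      show mulL a (δ 1) = a
      have : ((mulL : L1 S →L[ℂ] (L1 S →L[ℂ] L1 S)).flip (δ 1))
          = ContinuousLinearMap.id ℂ (L1 S) := by
        refine ext_δ (fun s => ?_)
        rw [ContinuousLinearMap.flip_apply, mulL_δ, mul_one]; rfl
      exact DFunLike.congr_fun this a
    norm_mul_le := norm_mulL_le }

instance : IsScalarTower ℂ (L1 S) (L1 S) := ⟨fun c f g => by
  show mulL (c • f) g = c • mulL f g
  rw [map_smul]; rfl⟩

instance : SMulCommClass ℂ (L1 S) (L1 S) := ⟨fun c f g => by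
  show c • mulL f g = mulL f (c • g)
  rw [map_smul]⟩

lemma δ_mul_δ (s t : S) : (δ s : L1 S) * δ t = δ (s * t) := mulL_δ s t

lemma norm_one' : ‖(1 : L1 S)‖ = 1 := norm_δ 1

end L1

end algebra

end Pool.Agent.Work.MP_12dd5c_an
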