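import Pool.Agent.Work.MP_12dd5c_an.Params

/-!
# The topological left invariant mean
-/

set_option autoImplicit false
set_option maxSynthPendingDepth 3

namespace Pool.Agent.Work.MP_12dd5c_an

open Topology Filter Impl

section general

variable (F : FAlg)

/-- An asymptotically invariant sequence gives a topological left invariant mean. -/
lemma exists_mean (u : ℕ → F.A) (hu1 : ∀ k, ‖u k‖ ≤ 1) (hu2 : ∀ k, F.dual 1 (u k) = 1)
    (hu3 : ∀ a ∈ P1 F, Tendsto (fun k => a * u k - u k) atTop (𝓝 0)) :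
    ∃ M : (F.A →L[ℂ] ℂ) →L[ℂ] ℂ, ‖M‖ ≤ 1 ∧ M (F.dual 1) = 1 ∧
      ∀ (f : F.A →L[ℂ] ℂ), ∀ a ∈ P1 F, M (act f a) = M f := by
  let J : F.A →ₗᵢ[ℂ] StrongDual ℂ (StrongDual ℂ F.A) := NormedSpace.inclusionInDoubleDualLi ℂ
  have hK := WeakDual.isCompact_closedBall (𝕜 := ℂ) (E := StrongDual ℂ F.A) 0 1
  let U : Ultrafilter ℕ := Ultrafilter.of atTop
  have hU : (U : Filter ℕ) ≤ atTop := Ultrafilter.of_le _
  let g : ℕ → WeakDual ℂ (StrongDual ℂ F.A) := fun k => StrongDual.toWeakDual (J (u k))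
  have hg : Filter.map g (U : Filter ℕ) ≤
      𝓟 (WeakDual.toStrongDual ⁻¹' Metric.closedBall (0 : StrongDual ℂ (StrongDual ℂ F.A)) 1) := by
    rw [le_principal_iff, mem_map]
    refine Eventually.of_forall fun k => ?_
    show J (u k) ∈ Metric.closedBall (0 : StrongDual ℂ (StrongDual ℂ F.A)) 1
    rw [mem_closedBall_zero_iff, J.norm_map]
    exact hu1 k
  obtain ⟨M, hM1, hM2⟩ := hK.ultrafilter_le_nhds (U.map g) hg
  have hlim : ∀ f : F.A →L[ℂ] ℂ, Tendsto (fun k => f (u k)) (U : Filter ℕ)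
      (𝓝 (WeakDual.toStrongDual M f)) := by
    intro f
    have h1 : Tendsto g (U : Filter ℕ) (𝓝 M) := hM2
    exact ((WeakDual.eval_continuous f).tendsto M).comp h1
  refine ⟨WeakDual.toStrongDual M, ?_, ?_, ?_⟩
  · have : WeakDual.toStrongDual M ∈
      Metric.closedBall (0 : StrongDual ℂ (StrongDual ℂ F.A)) 1 := hM1
    rwa [mem_closedBall_zero_iff] at this
  · refine tendsto_nhds_unique (hlim (F.dual 1)) ?_
    simp only [hu2]
    exact tendsto_const_nhds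
  · intro f a ha
    have h1 := hlim (act f a)
    have h2 := hlim f
    have h3 : Tendsto (fun k => f (a * u k - u k)) (U : Filter ℕ) (𝓝 0) := by
      have := ((f.continuous.tendsto 0).comp (hu3 a ha)).mono_left hU
      rwa [map_zero] at this
    have h4 := h3.add h2
    rw [zero_add] at h4
    refine tendsto_nhds_unique h1 (h4.congr (fun k => ?_))
    show f (a * u k - u k) + f (u k) = f (a * u k)
    rw [map_sub]
    ring

lemma norm_dual_one : ‖F.dual 1‖ = 1 := by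
  rw [F.dual.norm_map]
  exact CStarRing.norm_one

/-- restriction of the mean -/
lemma hasTLIM_of_mean (M : (F.A →L[ℂ] ℂ) →L[ℂ] ℂ) (hM1 : ‖M‖ ≤ 1) (hM2 : M (F.dual 1) = 1)
    (hM3 : ∀ (f : F.A →L[ℂ] ℂ), ∀ a ∈ P1 F, M (act f a) = M f)
    (V : Submodule ℂ (F.A →L[ℂ] ℂ)) (hV1 : F.dual 1 ∈ V)
    (hV2 : ∀ f ∈ V, ∀ a, act f a ∈ V) : HasTLIM F V := by
  refine ⟨M.comp V.subtypeL, le_antisymm ?_ ?_, ⟨hV1, hM2⟩, fun f a ha =>
    ⟨hV2 f f.2 a, hM3 f a ha⟩⟩
  · refine ContinuousLinearMap.opNorm_le_bound _ zero_le_one (fun f => ?_)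
    calc ‖M (f : F.A →L[ℂ] ℂ)‖ ≤ ‖M‖ * ‖(f : F.A →L[ℂ] ℂ)‖ := M.le_opNorm _
      _ ≤ 1 * ‖f‖ := by
          gcongr
          exact le_rfl
  · have h1 := (M.comp V.subtypeL).le_opNorm ⟨F.dual 1, hV1⟩
    have h2 : (M.comp V.subtypeL) ⟨F.dual 1, hV1⟩ = 1 := hM2
    have h3 : ‖(⟨F.dual 1, hV1⟩ : V)‖ = 1 := norm_dual_one F
    rw [h2, h3, mul_one, norm_one] at h1
    exact h1

lemma one_mem_AP : F.dual 1 ∈ AP F := by
  show IsCompactOperator (fun a : F.A => act (F.dual 1) a)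
  have h1 : IsCompactOperator (fun z : ℂ => z • F.dual 1) :=
    isCompactOperator_of_locallyCompactSpace_rng
      (ContinuousLinearMap.toSpanSingleton ℂ (F.dual 1))
  have h2 := h1.comp_clm (F.dual 1)
  refine (congrArg IsCompactOperator ?_).mp h2
  funext a
  refine ContinuousLinearMap.ext fun x => ?_
  exact (F.mult a x).symm

lemma act_mem_AP {f : F.A →L[ℂ] ℂ} (hf : f ∈ AP F) (a : F.A) : act f a ∈ AP F := by
  have h1 : IsCompactOperator (fun b : F.A => act f b) := hf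
  have h2 := h1.comp_clm (ContinuousLinearMap.mul ℂ F.A a)
  refine (congrArg IsCompactOperator ?_).mp h2
  funext b
  refine ContinuousLinearMap.ext fun x => ?_
  show f (a * b * x) = f (a * (b * x))
  rw [mul_assoc]

end general

/-! ### The example -/

section example_mean

/-- generators of the algebra -/
noncomputable def gD : L1 Sm := L1.δ Sm.D
/-- generators of the algebra -/
noncomputable def gE : L1 Sm := L1.δ Sm.E
/-- generators of the algebra -/
noncomputable def gP : L1 Sm := L1.δ Sm.P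

lemma gD_gE : gD * gE = gE * gD := by
  show L1.δ _ * L1.δ _ = L1.δ _ * L1.δ _
  rw [L1.δ_mul_δ, L1.δ_mul_δ, Sm.D_mul_E]

lemma gP_gD : gP * gD = gE * gP := by
  show L1.δ _ * L1.δ _ = L1.δ _ * L1.δ _
  rw [L1.δ_mul_δ, L1.δ_mul_δ, Sm.P_mul_D]

lemma gP_gE : gP * gE = gD * gP := by
  show L1.δ _ * L1.δ _ = L1.δ _ * L1.δ _
  rw [L1.δ_mul_δ, L1.δ_mul_δ, Sm.P_mul_E]

lemma gP_gP : gP * gP = 1 := by
  show L1.δ _ * L1.δ _ = _
  rw [L1.δ_mul_δ, Sm.P_mul_P]; rfl

lemma δ_pow (s : Sm) (k : ℕ) : (L1.δ s : L1 Sm) ^ k = L1.δ (s ^ k) := by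
  induction k with
  | zero => rw [pow_zero, pow_zero]; rfl
  | succ k ih => rw [pow_succ, ih, L1.δ_mul_δ, pow_succ]

lemma norm_pow_le (s : Sm) (k : ℕ) : ‖(L1.δ s : L1 Sm) ^ k‖ ≤ 1 := by
  rw [δ_pow, L1.norm_δ]

/-- partial geometric sums -/
noncomputable def gs (a : L1 Sm) (N : ℕ) : L1 Sm := ∑ i ∈ Finset.range N, a ^ i

lemma norm_gs_le (s : Sm) (N : ℕ) : ‖gs (L1.δ s) N‖ ≤ N := by
  unfold gs
  calc ‖∑ i ∈ Finset.range N, (L1.δ s : L1 Sm) ^ i‖
      ≤ ∑ i ∈ Finset.range N, ‖(L1.δ s : L1 Sm) ^ i‖ := norm_sum_le _ _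
    _ ≤ ∑ _i ∈ Finset.range N, (1 : ℝ) := Finset.sum_le_sum fun i _ => norm_pow_le s i
    _ = N := by simp

lemma sub_mul_gs (a : L1 Sm) (N : ℕ) : (a - 1) * gs a N = a ^ N - 1 := mul_geom_sum a N

lemma gs_comm {a b : L1 Sm} (h : a * b = b * a) (N : ℕ) : a * gs b N = gs b N * a := by
  have h1 : Commute a b := h
  exact (Commute.sum_right _ _ _ fun i _ => h1.pow_right i).eq

lemma gs_comm' {a b : L1 Sm} (h : a * b = b * a) (N : ℕ) :
    gs a N * gs b N = gs b N * gs a N := by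
  have h1 : Commute a b := h
  exact (Commute.sum_left _ _ _ fun i _ => (Commute.sum_right _ _ _ fun j _ =>
    (h1.pow_pow i j))).eq

lemma gs_twist {p a b : L1 Sm} (h : p * a = b * p) (N : ℕ) : p * gs a N = gs b N * p := by
  have key : ∀ i : ℕ, p * a ^ i = b ^ i * p := by
    intro i
    induction i with
    | zero => rw [pow_zero, pow_zero, mul_one, one_mul]
    | succ i ih => rw [pow_succ, ← mul_assoc, ih, mul_assoc, h, ← mul_assoc, ← pow_succ]
  unfold gs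
  rw [Finset.mul_sum, Finset.sum_mul]
  exact Finset.sum_congr rfl fun i _ => key i

/-- the asymptotically invariant sequence, up to a scalar -/
noncomputable def uu (N : ℕ) : L1 Sm := gs gD N * gs gE N * (1 + gP)

lemma norm_two : ‖(1 + gP : L1 Sm)‖ ≤ 2 := by
  calc ‖(1 + gP : L1 Sm)‖ ≤ ‖(1 : L1 Sm)‖ + ‖gP‖ := norm_add_le _ _
    _ = 2 := by
        have : ‖gP‖ = 1 := L1.norm_δ _
        rw [L1.norm_one', this]; norm_num

lemma norm_uu_le (N : ℕ) : ‖uu N‖ ≤ 2 * N * N := by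
  have h1 := norm_gs_le Sm.D N
  have h2 := norm_gs_le Sm.E N
  calc ‖uu N‖ ≤ ‖gs gD N * gs gE N‖ * ‖(1 + gP : L1 Sm)‖ := norm_mul_le _ _
    _ ≤ (‖gs gD N‖ * ‖gs gE N‖) * ‖(1 + gP : L1 Sm)‖ := by
        gcongr; exact norm_mul_le _ _
    _ ≤ (N * N) * 2 := by
        have := norm_two
        gcongr
        · exact h1
        · exact h2
    _ = 2 * N * N := by ring

lemma norm_pow_sub_one (s : Sm) (N : ℕ) : ‖(L1.δ s : L1 Sm) ^ N - 1‖ ≤ 2 := by
  calc ‖(L1.δ s : L1 Sm) ^ N - 1‖ ≤ ‖(L1.δ s : L1 Sm) ^ N‖ + ‖(1 : L1 Sm)‖ := norm_sub_le _ _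
    _ ≤ 1 + 1 := by rw [L1.norm_one']; gcongr; exact norm_pow_le s N
    _ = 2 := by norm_num

lemma norm_D_uu (N : ℕ) : ‖gD * uu N - uu N‖ ≤ 4 * N := by
  have e : gD * uu N - uu N = (gD ^ N - 1) * gs gE N * (1 + gP) := by
    rw [← sub_mul_gs, uu]
    noncomm_ring
  rw [e]
  have h2 := norm_gs_le Sm.E N
  calc ‖(gD ^ N - 1) * gs gE N * (1 + gP)‖
      ≤ ‖(gD ^ N - 1) * gs gE N‖ * ‖(1 + gP : L1 Sm)‖ := norm_mul_le _ _
    _ ≤ (‖gD ^ N - 1‖ * ‖gs gE N‖) * ‖(1 + gP : L1 Sm)‖ := by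
        gcongr; exact norm_mul_le _ _
    _ ≤ (2 * N) * 2 := by
        have h1 := norm_two
        have h3 := norm_pow_sub_one Sm.D N
        gcongr
        · exact h3
        · exact h2
    _ = 4 * N := by ring

lemma norm_E_uu (N : ℕ) : ‖gE * uu N - uu N‖ ≤ 4 * N := by
  have e : gE * uu N - uu N = (gE ^ N - 1) * gs gD N * (1 + gP) := by
    have h0 : uu N = gs gE N * gs gD N * (1 + gP) := by
      rw [uu, gs_comm' gD_gE]
    rw [← sub_mul_gs, h0]
    noncomm_ring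
  rw [e]
  have h2 := norm_gs_le Sm.D N
  calc ‖(gE ^ N - 1) * gs gD N * (1 + gP)‖
      ≤ ‖(gE ^ N - 1) * gs gD N‖ * ‖(1 + gP : L1 Sm)‖ := norm_mul_le _ _
    _ ≤ (‖gE ^ N - 1‖ * ‖gs gD N‖) * ‖(1 + gP : L1 Sm)‖ := by
        gcongr; exact norm_mul_le _ _
    _ ≤ (2 * N) * 2 := by
        have h1 := norm_two
        have h3 := norm_pow_sub_one Sm.E N
        gcongr
        · exact h3
        · exact h2
    _ = 4 * N := by ring

lemma P_uu (N : ℕ) : gP * uu N = uu N := by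
  calc gP * uu N = gP * gs gD N * gs gE N * (1 + gP) := by rw [uu]; noncomm_ring
    _ = gs gE N * (gP * gs gE N) * (1 + gP) := by rw [gs_twist gP_gD]; noncomm_ring
    _ = gs gE N * gs gD N * (gP + gP * gP) := by rw [gs_twist gP_gE]; noncomm_ring
    _ = uu N := by rw [gP_gP, ← gs_comm' gD_gE, add_comm gP 1, uu]

/-- the asymptotically invariant sequence -/
noncomputable def un (k : ℕ) : L1 Sm := (((2 * ((k : ℝ) + 1) * ((k : ℝ) + 1))⁻¹ : ℝ) : ℂ) • uu (k + 1)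

lemma norm_un_aux {w : L1 Sm} {k : ℕ} {C : ℝ} (h : ‖w‖ ≤ C) :
    ‖(((2 * ((k : ℝ) + 1) * ((k : ℝ) + 1))⁻¹ : ℝ) : ℂ) • w‖
      ≤ (2 * ((k : ℝ) + 1) * ((k : ℝ) + 1))⁻¹ * C := by
  rw [norm_smul, Complex.norm_real, Real.norm_of_nonneg (by positivity)]
  gcongr

lemma norm_un (k : ℕ) : ‖un k‖ ≤ 1 := by
  refine (norm_un_aux (norm_uu_le (k + 1))).trans ?_
  push_cast
  rw [inv_mul_cancel₀ (by positivity)]

lemma tendsto_bound : Tendsto (fun k : ℕ => (2 * ((k : ℝ) + 1) * ((k : ℝ) + 1))⁻¹ *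
    (4 * ((k + 1 : ℕ) : ℝ))) atTop (𝓝 0) := by
  have e : (fun k : ℕ => (2 * ((k : ℝ) + 1) * ((k : ℝ) + 1))⁻¹ * (4 * ((k + 1 : ℕ) : ℝ)))
      = fun k : ℕ => 2 * (1 / ((k : ℝ) + 1)) := by
    funext k
    have : ((k : ℝ) + 1) ≠ 0 := by positivity
    push_cast
    field_simp
    ring
  rw [e]
  have := (tendsto_one_div_add_atTop_nhds_zero_nat (𝕜 := ℝ)).const_mul 2
  simpa using this

/-- the functional of total mass -/
noncomputable def ee : L1 Sm →L[ℂ] ℂ := dualMap 1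

lemma ee_mul (a b : L1 Sm) : ee (a * b) = ee a * ee b := F₀.mult a b

lemma ee_δ (s : Sm) : ee (L1.δ s) = 1 := dualMap_δ 1 s

lemma ee_one : ee 1 = 1 := ee_δ 1

lemma ee_pow (s : Sm) (i : ℕ) : ee ((L1.δ s : L1 Sm) ^ i) = 1 := by
  rw [δ_pow, ee_δ]

lemma ee_gs (s : Sm) (N : ℕ) : ee (gs (L1.δ s) N) = N := by
  unfold gs
  rw [map_sum]
  simp [ee_pow]

lemma ee_un (k : ℕ) : ee (un k) = 1 := by
  have h1 : ee (uu (k + 1)) = ((k : ℂ) + 1) * ((k : ℂ) + 1) * 2 := by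
    have e1 : ee (gs gD (k + 1)) = (k : ℂ) + 1 := by
      have := ee_gs Sm.D (k + 1)
      push_cast at this
      exact this
    have e2 : ee (gs gE (k + 1)) = (k : ℂ) + 1 := by
      have := ee_gs Sm.E (k + 1)
      push_cast at this
      exact this
    have e3 : ee (1 + gP) = 2 := by
      have : ee gP = 1 := ee_δ _
      rw [map_add, ee_one, this]; norm_num
    rw [uu, ee_mul, ee_mul, e1, e2, e3]
  unfold un
  rw [map_smul, h1, smul_eq_mul]
  have : ((k : ℂ) + 1) ≠ 0 := Nat.cast_add_one_ne_zero k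
  push_cast
  field_simp

/-- elements acting trivially in the limit -/
lemma tendsto_generator (a : L1 Sm) (h : ∀ N, ‖a * uu N - uu N‖ ≤ 4 * N) :
    Tendsto (fun k => a * un k - un k) atTop (𝓝 0) := by
  refine squeeze_zero_norm (fun k => ?_) tendsto_bound
  have e : a * un k - un k = (((2 * ((k : ℝ) + 1) * ((k : ℝ) + 1))⁻¹ : ℝ) : ℂ) •
      (a * uu (k + 1) - uu (k + 1)) := by
    unfold un
    rw [mul_smul_comm, smul_sub]
  rw [e]
  exact norm_un_aux (h (k + 1))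

lemma tendsto_mul {a b : L1 Sm} (ha : Tendsto (fun k => a * un k - un k) atTop (𝓝 0))
    (hb : Tendsto (fun k => b * un k - un k) atTop (𝓝 0)) :
    Tendsto (fun k => a * b * un k - un k) atTop (𝓝 0) := by
  have h1 : Tendsto (fun k => a * (b * un k - un k)) atTop (𝓝 0) := by
    have := hb.const_mul a
    rwa [mul_zero] at this
  have h2 := h1.add ha
  rw [add_zero] at h2
  refine h2.congr fun k => ?_
  rw [mul_sub, ← mul_assoc]
  abel

lemma tendsto_δ (s : Sm) : Tendsto (fun k => L1.δ s * un k - un k) atTop (𝓝 0) := by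
  have hD : Tendsto (fun k => gD * un k - un k) atTop (𝓝 0) := tendsto_generator _ norm_D_uu
  have hE : Tendsto (fun k => gE * un k - un k) atTop (𝓝 0) := tendsto_generator _ norm_E_uu
  have hP : Tendsto (fun k => gP * un k - un k) atTop (𝓝 0) := tendsto_generator _ fun N => by
    rw [P_uu, sub_self, norm_zero]; positivity
  have h1 : Tendsto (fun k => (1 : L1 Sm) * un k - un k) atTop (𝓝 0) := by
    simp only [one_mul, sub_self]
    exact tendsto_const_nhds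
  have hpow : ∀ {a : L1 Sm}, Tendsto (fun k => a * un k - un k) atTop (𝓝 0) → ∀ n : ℕ,
      Tendsto (fun k => a ^ n * un k - un k) atTop (𝓝 0) := by
    intro a ha n
    induction n with
    | zero => simpa only [pow_zero] using h1
    | succ n ih => rw [pow_succ]; exact tendsto_mul ih ha
  have e : (L1.δ s : L1 Sm) = gD ^ s.m * gE ^ s.n * (bif s.b then gP else 1) := by
    conv_lhs => rw [Sm.eq_prod s]
    unfold gD gE gP
    rw [δ_pow, δ_pow, ← L1.δ_mul_δ, ← L1.δ_mul_δ]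
    congr 1
    cases s.b <;> rfl
  rw [e]
  refine tendsto_mul (tendsto_mul (hpow hD _) (hpow hE _)) ?_
  cases s.b
  · exact h1
  · exact hP

lemma tendsto_all (a : L1 Sm) : Tendsto (fun k => a * un k - ee a • un k) atTop (𝓝 0) := by
  let Λ : ℕ → (L1 Sm →L[ℂ] L1 Sm) := fun k =>
    (ContinuousLinearMap.mul ℂ (L1 Sm)).flip (un k) - ee.smulRight (un k)
  have hΛ : ∀ k b, Λ k b = b * un k - ee b • un k := fun _ _ => rfl
  have h1 : ∀ k, Λ k a = ∑' s, L1.coord a s • Λ k (L1.δ s) := by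
    intro k
    have := (Λ k).hasSum (L1.hasSum_δ a)
    rw [← this.tsum_eq]
    congr 1
    funext s
    show Λ k (L1.coord a s • L1.δ s) = _
    rw [map_smul]
  have h2 : Tendsto (fun k => ∑' s, L1.coord a s • Λ k (L1.δ s)) atTop
      (𝓝 (∑' _s : Sm, (0 : L1 Sm))) := by
    refine tendsto_tsum_of_dominated_convergence (bound := fun s => ‖L1.coord a s‖ * 2) ?_ ?_ ?_
    · exact (L1.summable_norm a).mul_right 2
    · intro s
      have h3 : Tendsto (fun k => Λ k (L1.δ s)) atTop (𝓝 0) := by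
        refine (tendsto_δ s).congr fun k => ?_
        rw [hΛ, ee_δ, one_smul]
      have h4 := h3.const_smul (L1.coord a s)
      rwa [smul_zero] at h4
    · refine Eventually.of_forall fun k s => ?_
      rw [norm_smul]
      refine mul_le_mul_of_nonneg_left ?_ (norm_nonneg _)
      rw [hΛ, ee_δ, one_smul]
      calc ‖L1.δ s * un k - un k‖ ≤ ‖L1.δ s * un k‖ + ‖un k‖ := norm_sub_le _ _
        _ ≤ ‖(L1.δ s : L1 Sm)‖ * ‖un k‖ + ‖un k‖ := by gcongr; exact norm_mul_le _ _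
        _ ≤ 1 * 1 + 1 := by
            rw [L1.norm_δ]
            have := norm_un k
            gcongr
        _ = 2 := by norm_num
  rw [tsum_zero] at h2
  refine h2.congr fun k => ?_
  rw [← h1, hΛ]

/-- the whole dual of the example has a topological left invariant mean -/
lemma exists_mean_F₀ : ∃ M : (F₀.A →L[ℂ] ℂ) →L[ℂ] ℂ, ‖M‖ ≤ 1 ∧ M (F₀.dual 1) = 1 ∧
      ∀ (f : F₀.A →L[ℂ] ℂ), ∀ a ∈ P1 F₀, M (act f a) = M f := by
  refine exists_mean F₀ un norm_un ee_un (fun a ha => ?_)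
  have h := tendsto_all a
  have h1 : ee a = 1 := P1_one ha
  simp only [h1, one_smul] at h
  exact h

theorem hasTLIM_top : HasTLIM F₀ ⊤ := by
  obtain ⟨M, h1, h2, h3⟩ := exists_mean_F₀
  exact hasTLIM_of_mean F₀ M h1 h2 h3 ⊤ trivial fun _ _ _ => trivial

theorem hasTLIM_AP : HasTLIM F₀ (AP F₀) := by
  obtain ⟨M, h1, h2, h3⟩ := exists_mean_F₀
  exact hasTLIM_of_mean F₀ M h1 h2 h3 (AP F₀) (one_mem_AP F₀) fun f hf a => act_mem_AP F₀ hf a

end example_mean

end Pool.Agent.Work.MP_12dd5c_an
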