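import Pool.Agent.Work.MP_12dd5c_an.Example

/-!
# The parameter map on `P₁(A)` and the topological left invariant mean
-/

set_option autoImplicit false
set_option maxSynthPendingDepth 3

namespace Pool.Agent.Work.MP_12dd5c_an

open Topology Filter Impl
open scoped BoundedContinuousFunction

/-- a bounded real function on the monoid as an element of `ℓ^∞` -/
noncomputable def rW (f : Sm → ℝ) (C : ℝ) (hf : ∀ s, |f s| ≤ C) : Sm →ᵇ ℂ :=
  BoundedContinuousFunction.ofNormedAddCommGroupDiscrete (fun s => (f s : ℂ)) C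
    (fun s => by rw [Complex.norm_real]; exact hf s)

lemma rW_apply (f : Sm → ℝ) (C : ℝ) (hf : ∀ s, |f s| ≤ C) (s : Sm) : rW f C hf s = (f s : ℂ) := rfl

lemma mem_P1_iff (a : L1 Sm) : a ∈ P1 F₀ ↔
    (∀ g : Sm →ᵇ ℂ, 0 ≤ (dualMap (star g * g) a).re ∧ (dualMap (star g * g) a).im = 0) ∧
      dualMap 1 a = 1 := Iff.rfl

lemma P1_nonneg {a : L1 Sm} (ha : a ∈ P1 F₀) (f : Sm → ℝ) (C : ℝ) (hf : ∀ s, |f s| ≤ C)
    (h0 : ∀ s, 0 ≤ f s) : 0 ≤ (dualMap (rW f C hf) a).re ∧ (dualMap (rW f C hf) a).im = 0 := by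
  have hg : ∀ s, |Real.sqrt (f s)| ≤ Real.sqrt C := fun s => by
    rw [abs_of_nonneg (Real.sqrt_nonneg _)]
    exact Real.sqrt_le_sqrt ((le_abs_self _).trans (hf s))
  have e : star (rW (fun s => Real.sqrt (f s)) (Real.sqrt C) hg) *
      rW (fun s => Real.sqrt (f s)) (Real.sqrt C) hg = rW f C hf := by
    ext s
    show star ((Real.sqrt (f s) : ℝ) : ℂ) * ((Real.sqrt (f s) : ℝ) : ℂ) = ((f s : ℝ) : ℂ)
    rw [RCLike.star_def, Complex.conj_ofReal, ← Complex.ofReal_mul, Real.mul_self_sqrt (h0 s)]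
  have h1 := ((mem_P1_iff a).mp ha).1 (rW (fun s => Real.sqrt (f s)) (Real.sqrt C) hg)
  rw [e] at h1
  exact h1

lemma P1_one {a : L1 Sm} (ha : a ∈ P1 F₀) : dualMap 1 a = 1 := ha.2

/-- the entries as functionals -/
noncomputable def entL (i : Fin 5) : L1 Sm →L[ℂ] ℂ :=
  dualMap (rW (Sm.ent i) 1 (fun s => by
    rw [abs_of_nonneg (Sm.ent_mem i s).1]; exact (Sm.ent_mem i s).2))

lemma entL_δ (i : Fin 5) (s : Sm) : entL i (L1.δ s) = (Sm.ent i s : ℂ) := dualMap_δ _ s

/-- the parameters of an element of `ℓ¹` -/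
noncomputable def par (a : L1 Sm) : Fin 5 → ℝ := fun i => (entL i a).re

lemma entL_eq {a : L1 Sm} (ha : a ∈ P1 F₀) (i : Fin 5) : entL i a = (par a i : ℂ) := by
  apply Complex.ext
  · rw [Complex.ofReal_re]; rfl
  · rw [Complex.ofReal_im]
    exact (P1_nonneg ha _ _ _ (fun s => (Sm.ent_mem i s).1)).2

lemma par_nonneg {a : L1 Sm} (ha : a ∈ P1 F₀) (i : Fin 5) : 0 ≤ par a i :=
  (P1_nonneg ha _ _ _ (fun s => (Sm.ent_mem i s).1)).1

/-- a pointwise linear inequality between bounded functions gives an inequality on `P₁` -/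
lemma P1_mono {a : L1 Sm} (ha : a ∈ P1 F₀) (w : Sm →ᵇ ℂ) (f : Sm → ℝ) (C : ℝ)
    (hf : ∀ s, |f s| ≤ C) (h0 : ∀ s, 0 ≤ f s) (hw : ∀ s, w s = (f s : ℂ)) :
    0 ≤ (dualMap w a).re := by
  have : w = rW f C hf := by
    ext s
    rw [hw, rW_apply]
  rw [this]
  exact (P1_nonneg ha f C hf h0).1

lemma par_mem {a : L1 Sm} (ha : a ∈ P1 F₀) : par a ∈ QSet := by
  let w : Fin 5 → (Sm →ᵇ ℂ) := fun i => rW (Sm.ent i) 1 (fun s => by
    rw [abs_of_nonneg (Sm.ent_mem i s).1]; exact (Sm.ent_mem i s).2)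
  have hw : ∀ i, (dualMap (w i) a).re = par a i := fun i => rfl
  have h1 : (dualMap 1 a).re = 1 := by rw [P1_one ha]; rfl
  have hm := Sm.ent_mem
  have hle : ∀ i, par a i ≤ 1 := by
    intro i
    have h := P1_mono ha (1 - w i) (fun s => 1 - Sm.ent i s) 1
      (fun s => by rw [abs_of_nonneg (by linarith [(hm i s).2])]; linarith [(hm i s).1])
      (fun s => by linarith [(hm i s).2]) (fun s => by
        show (1 : ℂ) - (Sm.ent i s : ℂ) = _
        push_cast; rfl)
    rw [map_sub] at h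
    have h2 : (dualMap 1 a - dualMap (w i) a).re = 1 - par a i := by
      rw [Complex.sub_re, h1, hw]
    have h3 : ((dualMap 1 - dualMap (w i)) a).re = (dualMap 1 a - dualMap (w i) a).re := rfl
    rw [h3, h2] at h
    linarith
  have key : ∀ i j k : Fin 5, (∀ s, Sm.ent i s ≤ Sm.ent j s + Sm.ent k s) →
      par a i ≤ par a j + par a k := by
    intro i j k hs
    have h := P1_mono ha (w j + w k - w i) (fun s => Sm.ent j s + Sm.ent k s - Sm.ent i s) 2
      (fun s => by
        rw [abs_of_nonneg (by linarith [hs s])]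
        linarith [(hm i s).1, (hm j s).2, (hm k s).2])
      (fun s => by linarith [hs s]) (fun s => by
        show (Sm.ent j s : ℂ) + (Sm.ent k s : ℂ) - (Sm.ent i s : ℂ) = _
        push_cast; rfl)
    rw [map_sub, map_add] at h
    have h3 : ((dualMap (w j) + dualMap (w k) - dualMap (w i)) a).re
        = (dualMap (w j) a + dualMap (w k) a - dualMap (w i) a).re := rfl
    rw [h3, Complex.sub_re, Complex.add_re, hw, hw, hw] at h
    linarith
  have key2 : ∀ j k : Fin 5, (∀ s, Sm.ent j s + Sm.ent k s ≤ 1) →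
      par a j + par a k ≤ 1 := by
    intro j k hs
    have h := P1_mono ha (1 - w j - w k) (fun s => 1 - Sm.ent j s - Sm.ent k s) 1
      (fun s => by
        rw [abs_of_nonneg (by linarith [hs s])]
        linarith [(hm j s).1, (hm k s).1])
      (fun s => by linarith [hs s]) (fun s => by
        show (1 : ℂ) - (Sm.ent j s : ℂ) - (Sm.ent k s : ℂ) = _
        push_cast; rfl)
    rw [map_sub, map_sub] at h
    have h3 : ((dualMap 1 - dualMap (w j) - dualMap (w k)) a).re
        = (dualMap 1 a - dualMap (w j) a - dualMap (w k) a).re := rfl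
    rw [h3, Complex.sub_re, Complex.sub_re, hw, hw, h1] at h
    linarith
  refine ⟨fun i => ⟨par_nonneg ha i, hle i⟩, ⟨key 4 0 2 Sm.ent_le1, key 4 1 3 Sm.ent_le2⟩,
    key2 0 2 (fun s => ?_), key2 1 3 (fun s => ?_)⟩
  · rcases s with ⟨x, y, c⟩
    cases c
    · show (1 / 2 : ℝ) ^ x + 0 ≤ 1
      linarith [(Sm.half_pow x).2]
    · show (0 : ℝ) + (1 / 2) ^ y ≤ 1
      linarith [(Sm.half_pow y).2]
  · rcases s with ⟨x, y, c⟩
    cases c
    · show (0 : ℝ) + (1 / 2) ^ y ≤ 1
      linarith [(Sm.half_pow y).2]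
    · show (1 / 2 : ℝ) ^ x + 0 ≤ 1
      linarith [(Sm.half_pow x).2]

open Classical in
lemma par4_pos {a : L1 Sm} (ha : a ∈ P1 F₀) : 0 < par a 4 := by
  refine lt_of_le_of_ne (par_nonneg ha 4) (fun h0 => ?_)
  let w4 : Sm →ᵇ ℂ := rW (Sm.ent 4) 1 (fun s => by
    rw [abs_of_nonneg (Sm.ent_mem 4 s).1]; exact (Sm.ent_mem 4 s).2)
  have hw4 : (dualMap w4 a).re = 0 := h0.symm
  -- all the coordinates vanish
  have hcoord : ∀ t : Sm, L1.coord a t = 0 := by
    intro t
    have ht := Sm.ent4_pos t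
    -- indicator of `t`
    let f : Sm → ℝ := fun s => if s = t then 1 else 0
    have hf : ∀ s, |f s| ≤ 1 := fun s => by
      by_cases h : s = t
      · simp [f, h]
      · simp [f, h]
    have hf0 : ∀ s, 0 ≤ f s := fun s => by
      by_cases h : s = t
      · simp [f, h]
      · simp [f, h]
    have e1 : dualMap (rW f 1 hf) a = L1.coord a t := by
      show dualFun _ a = _
      rw [dualFun, L1.lift_apply, tsum_eq_single t]
      · show L1.coord a t • ((f t : ℝ) : ℂ) = L1.coord a t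
        simp [f]
      · intro s hs
        show L1.coord a s • ((f s : ℝ) : ℂ) = 0
        simp [f, hs]
    have h1 := P1_nonneg ha f 1 hf hf0
    rw [e1] at h1
    have h2 := P1_mono ha (w4 - (Sm.ent 4 t : ℂ) • rW f 1 hf)
      (fun s => Sm.ent 4 s - Sm.ent 4 t * f s) 2
      (fun s => by
        have a1 := Sm.ent_mem 4 s
        have a2 := Sm.ent_mem 4 t
        by_cases h : s = t
        · rw [h]; simp [f]
        · simp only [f, if_neg h, mul_zero, sub_zero]
          rw [abs_of_nonneg a1.1]; linarith)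
      (fun s => by
        by_cases h : s = t
        · rw [h]; simp [f]
        · simp only [f, if_neg h, mul_zero, sub_zero]
          exact (Sm.ent_mem 4 s).1)
      (fun s => by
        show (Sm.ent 4 s : ℂ) - (Sm.ent 4 t : ℂ) • ((f s : ℝ) : ℂ) = _
        rw [smul_eq_mul]
        push_cast; rfl)
    rw [map_sub, map_smul] at h2
    have h3 : ((dualMap w4 - (Sm.ent 4 t : ℂ) • dualMap (rW f 1 hf)) a).re
        = (dualMap w4 a - (Sm.ent 4 t : ℂ) * dualMap (rW f 1 hf) a).re := rfl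
    rw [h3, e1, Complex.sub_re, hw4, Complex.re_ofReal_mul] at h2
    have h4 : (L1.coord a t).re = 0 := by
      have := h1.1
      nlinarith
    exact Complex.ext h4 h1.2
  have h5 := P1_one ha
  have h6 : dualMap 1 a = 0 := by
    show dualFun _ a = 0
    rw [dualFun, L1.lift_apply]
    simp [hcoord]
  rw [h6] at h5
  exact zero_ne_one h5

lemma entL_mul {i : Fin 5} {j k j' k' : Fin 5}
    (h : ∀ s t, Sm.ent i (s * t) = Sm.ent j s * Sm.ent k t + Sm.ent j' s * Sm.ent k' t)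
    (a b : L1 Sm) : entL i (a * b) = entL j a * entL k b + entL j' a * entL k' b := by
  refine bilin_ext (entL i) ((entL j).smulRight (entL k) + (entL j').smulRight (entL k'))
    (fun s t => ?_) a b
  show entL i (L1.δ (s * t)) = entL j (L1.δ s) • entL k (L1.δ t)
    + entL j' (L1.δ s) • entL k' (L1.δ t)
  rw [entL_δ, entL_δ, entL_δ, entL_δ, entL_δ, h]
  push_cast
  rfl

lemma entL_mul4 (a b : L1 Sm) : entL 4 (a * b) = entL 4 a * entL 4 b := by
  refine bilin_ext (entL 4) ((entL 4).smulRight (entL 4)) (fun s t => ?_) a b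
  show entL 4 (L1.δ (s * t)) = entL 4 (L1.δ s) • entL 4 (L1.δ t)
  rw [entL_δ, entL_δ, entL_δ, Sm.ent_mul4]
  push_cast
  rfl

lemma par_mul {a b : L1 Sm} (ha : a ∈ P1 F₀) (hb : b ∈ P1 F₀) :
    par (a * b) = mulQ (par a) (par b) := by
  funext i
  have key : ∀ {i j k j' k' : Fin 5}, (∀ s t, Sm.ent i (s * t)
      = Sm.ent j s * Sm.ent k t + Sm.ent j' s * Sm.ent k' t) →
      par (a * b) i = par a j * par b k + par a j' * par b k' := by
    intro i j k j' k' h
    show (entL i (a * b)).re = _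
    rw [entL_mul h, entL_eq ha, entL_eq ha, entL_eq hb, entL_eq hb, ← Complex.ofReal_mul,
      ← Complex.ofReal_mul, ← Complex.ofReal_add, Complex.ofReal_re]
  fin_cases i
  · exact key Sm.ent_mul0
  · exact key Sm.ent_mul1
  · exact key Sm.ent_mul2
  · exact key Sm.ent_mul3
  · show (entL 4 (a * b)).re = par a 4 * par b 4
    rw [entL_mul4, entL_eq ha, entL_eq hb, ← Complex.ofReal_mul, Complex.ofReal_re]

lemma continuous_par : Continuous par :=
  continuous_pi fun i => Complex.continuous_re.comp (entL i).continuous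

lemma dist_par_le (a b : L1 Sm) : dist (par a) (par b) ≤ ‖a - b‖ := by
  refine (dist_pi_le_iff (norm_nonneg _)).mpr (fun i => ?_)
  have h1 : ‖entL i‖ ≤ 1 := by
    have : ‖entL i‖ = ‖rW (Sm.ent i) 1 (fun s => by
      rw [abs_of_nonneg (Sm.ent_mem i s).1]; exact (Sm.ent_mem i s).2)‖ := dualMap.norm_map _
    rw [this]
    refine (BoundedContinuousFunction.norm_le zero_le_one).mpr (fun s => ?_)
    rw [rW_apply, Complex.norm_real, Real.norm_of_nonneg (Sm.ent_mem i s).1]
    exact (Sm.ent_mem i s).2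
  rw [Real.dist_eq]
  have e : par a i - par b i = (entL i (a - b)).re := by
    rw [map_sub, Complex.sub_re]; rfl
  rw [e]
  calc |(entL i (a - b)).re| ≤ ‖entL i (a - b)‖ := Complex.abs_re_le_norm _
    _ ≤ ‖entL i‖ * ‖a - b‖ := (entL i).le_opNorm _
    _ ≤ 1 * ‖a - b‖ := by gcongr
    _ = ‖a - b‖ := one_mul _

lemma δ_mem (s : Sm) : (L1.δ s : L1 Sm) ∈ P1 F₀ := by
  rw [mem_P1_iff]
  refine ⟨fun g => ?_, ?_⟩
  · rw [dualMap_δ]
    have e2 : (star g * g : Sm →ᵇ ℂ) s = star (g s) * g s := rfl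
    rw [e2, RCLike.star_def, ← Complex.normSq_eq_conj_mul_self]
    exact ⟨by rw [Complex.ofReal_re]; exact Complex.normSq_nonneg _, Complex.ofReal_im _⟩
  · exact dualMap_δ 1 s

lemma half_mem {a b : L1 Sm} (ha : a ∈ P1 F₀) (hb : b ∈ P1 F₀) :
    (1 / 2 : ℂ) • (a + b) ∈ P1 F₀ := by
  rw [mem_P1_iff] at ha hb ⊢
  refine ⟨fun g => ?_, ?_⟩
  · obtain ⟨a1, a2⟩ := ha.1 g
    obtain ⟨b1, b2⟩ := hb.1 g
    have e3 : (1 / 2 : ℂ) = ((1 / 2 : ℝ) : ℂ) := by push_cast; rfl
    rw [map_smul, map_add, smul_eq_mul, e3, Complex.re_ofReal_mul, Complex.im_ofReal_mul,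
      Complex.add_re, Complex.add_im, a2, b2]
    exact ⟨by positivity, by ring⟩
  · rw [map_smul, map_add, ha.2, hb.2, smul_eq_mul]
    norm_num

lemma par_δ (s : Sm) (i : Fin 5) : par (L1.δ s) i = Sm.ent i s := by
  show (entL i (L1.δ s)).re = _
  rw [entL_δ, Complex.ofReal_re]

lemma par_half (a b : L1 Sm) (i : Fin 5) :
    par ((1 / 2 : ℂ) • (a + b)) i = (1 / 2) * (par a i + par b i) := by
  show (entL i ((1 / 2 : ℂ) • (a + b))).re = _
  have e3 : (1 / 2 : ℂ) = ((1 / 2 : ℝ) : ℂ) := by push_cast; rfl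
  rw [map_smul, map_add, smul_eq_mul, e3, Complex.re_ofReal_mul, Complex.add_re]
  rfl

end Pool.Agent.Work.MP_12dd5c_an
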