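import Pool.Agent.Work.MP_12dd5c_an.Fail
import Pool.Agent.Work.MP_12dd5c_an.Defs

/-!
# The example as an F-algebra in the sense of the definitions file
-/

set_option autoImplicit false
set_option maxSynthPendingDepth 3

namespace Pool.Agent.Work.MP_12dd5c_an

open Topology Filter unitInterval Q
open scoped BoundedContinuousFunction

/-- the F-algebra `ℓ¹(ℕ² ⋊ ℤ/2)` -/
noncomputable def F₁ : FAlg where
  A := L1 Sm
  mul := fun a b => a * b
  isBanachMul :=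
    { assoc := fun a b c => mul_assoc a b c
      add_left := fun a b c => add_mul a b c
      add_right := fun a b c => mul_add a b c
      smul_left := fun z a b => smul_mul_assoc z a b
      smul_right := fun z a b => mul_smul_comm z a b
      norm_le := fun a b => norm_mul_le a b }
  W := Sm →ᵇ ℂ
  dual := fun w => dualMap w
  isDuality :=
    { add := fun u v => dualMap.map_add u v
      smul := fun z u => dualMap.map_smul z u
      norm := fun u => dualMap.norm_map u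
      surj := dualMap.surjective }
  mult := fun a b => F₀.mult a b

lemma P1_eq (a : L1 Sm) : a ∈ P1 F₁ ↔ a ∈ Impl.P1 F₀ := Iff.rfl

/-- a mean on the whole dual restricts to a TLIM on invariant subspaces -/
lemma isTLIM_of_mean (V : Set (Dual F₁.A)) (h1 : F₁.dual 1 ∈ V)
    (h2 : ∀ f ∈ V, ∀ a, (Impl.act (F := F₀) f a : L1 Sm →L[ℂ] ℂ) ∈ V) :
    ∃ m, IsTLIM F₁ V m := by
  obtain ⟨M, hM1, hM2, hM3⟩ := exists_mean_F₀
  refine ⟨fun f => M f, ⟨fun f _ g _ => M.map_add f g, fun z f _ => M.map_smul z f,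
    fun f _ => ?_, h1, hM2, fun f hf a ha => ⟨Impl.act (F := F₀) f a, h2 f hf a, fun x => rfl,
      hM3 f a ha⟩⟩⟩
  have h3 := M.le_opNorm f
  calc ‖M f‖ ≤ ‖M‖ * ‖f‖ := h3
    _ ≤ 1 * ‖f‖ := by gcongr
    _ = ‖f‖ := one_mul _

lemma mem_AP_of {f : Dual F₁.A} (hf : (show F₀.A →L[ℂ] ℂ from f) ∈ Impl.AP F₀) : f ∈ AP F₁ := by
  have h1 : IsCompactOperator (fun a : F₀.A => Impl.act (F := F₀) f a) := hf
  -- the operator as a linear map
  let Λ : F₀.A →L[ℂ] (F₀.A →L[ℂ] ℂ) :=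
    (ContinuousLinearMap.compL ℂ F₀.A F₀.A ℂ f).comp (ContinuousLinearMap.mul ℂ F₀.A)
  let Λl : F₀.A →ₗ[ℂ] (F₀.A →L[ℂ] ℂ) := Λ.toLinearMap
  have h2 : IsCompactOperator Λl := h1
  obtain ⟨K, hK, hK2⟩ := h2.image_closedBall_subset_compact 1
  refine ⟨K, hK, fun a ha => ⟨Λ a, hK2 ⟨a, ?_, rfl⟩, fun x => rfl⟩⟩
  rw [mem_closedBall_zero_iff]
  exact ha

lemma of_mem_AP {f : Dual F₁.A} (hf : f ∈ AP F₁) : (show F₀.A →L[ℂ] ℂ from f) ∈ Impl.AP F₀ := by
  obtain ⟨K, hK, h⟩ := hf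
  show IsCompactOperator (fun a : F₀.A => Impl.act (F := F₀) f a)
  refine ⟨K, hK, Filter.mem_of_superset (Metric.closedBall_mem_nhds (0 : F₀.A) one_pos) ?_⟩
  intro a ha
  rw [mem_closedBall_zero_iff] at ha
  obtain ⟨g, hg, hg2⟩ := h a ha
  have e : Impl.act (F := F₀) f a = g := by
    refine ContinuousLinearMap.ext fun x => ?_
    exact (hg2 x).symm
  show Impl.act (F := F₀) f a ∈ K
  rw [e]
  exact hg

theorem tlim_AP : ∃ m, IsTLIM F₁ (AP F₁) m :=
  isTLIM_of_mean (AP F₁) (mem_AP_of (one_mem_AP F₀)) fun _ hf a =>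
    mem_AP_of (act_mem_AP F₀ (of_mem_AP hf) a)

theorem tlim_univ : ∃ m, IsTLIM F₁ Set.univ m :=
  isTLIM_of_mean Set.univ trivial fun _ _ _ => trivial

variable {𝕜 : Type} [RCLike 𝕜]

lemma isEquiRep₁ : IsEquiRep F₁ (TT 𝕜) where
  mul s hs t ht := isEquiRep.mul s hs t ht
  cont x := isEquiRep.cont x
  equi K hK x hx U hU := isEquiRep.equi K hK x hx U hU

lemma isRegular₁ : IsRegular F₁ (TT 𝕜) where
  cont _ hs := TT_continuous hs
  unif x U hU := TT_unif x U hU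

lemma isLCS₁ : IsLCS 𝕜 (ESp 𝕜) where
  group := inferInstance
  smul := inferInstance
  t2 := inferInstance
  convex := isLCS.convex

lemma isConsistent₁ : IsConsistent F₁ (TT 𝕜) 1 (XX : Set (ESp 𝕜)) :=
  ⟨isConsistent.1, fun L hL s hs => isConsistent.2 L hL s hs⟩

lemma isClosedInvariant₁ : IsClosedInvariant F₁ (TT 𝕜) 1 (LinearMap.ker (ev1 (𝕜 := 𝕜))) :=
  ⟨isClosedInvariant.1, fun s hs h hh => isClosedInvariant.2.1 s hs h hh,
    isClosedInvariant.2.2⟩

theorem not_weak₁ : ¬ WeakPropertyFA F₁ 𝕜 1 := by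
  intro h
  obtain ⟨L, hL, hinv⟩ := h (ESp 𝕜) isLCS₁ (TT 𝕜) isEquiRep₁ isRegular₁ XX isConsistent₁
    ⟨LinearMap.ker ev1, isClosedInvariant₁, fun x => ⟨isCompact_sect x, convex_sect x⟩⟩
  exact no_invariant L hL fun s hs => hinv s hs

theorem not_property₁ : ¬ PropertyFA F₁ 𝕜 1 := by
  intro h
  obtain ⟨L, hL, hinv⟩ := h (ESp 𝕜) isLCS₁ (TT 𝕜) isEquiRep₁ XX isConsistent₁
    ⟨LinearMap.ker ev1, isClosedInvariant₁, isCompact_sect⟩
  exact no_invariant L hL fun s hs => hinv s hs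

end Pool.Agent.Work.MP_12dd5c_an
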